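import Mathlib

/-!
# Conical juntas on the subsets of a finite type
-/

namespace Pool.Agent.BPath

/-- `f` is a nonnegative combination of conjunctions of at most `t` positive and at most `t`
negative literals; inputs are the subsets of the finite type `V`. -/
def Conical {V : Type} [DecidableEq V] (t : ℕ) (f : Finset V → ℝ) : Prop :=
  ∃ (ι : Type) (_ : Fintype ι) (P Q : ι → Finset V) (r : ι → ℝ),
    (∀ i, 0 ≤ r i) ∧ (∀ i, (P i).card ≤ t) ∧ (∀ i, (Q i).card ≤ t) ∧
    ∀ x, f x = ∑ i, if P i ⊆ x ∧ Disjoint (Q i) x then r i else 0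

end Pool.Agent.BPath
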