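import Pool.Agent.Helper79.BPath.Lip

/-!
# The potential: an integral of the expected logarithm over the density
-/

namespace Pool.Agent.BPath

open Finset

variable {V : Type} [Fintype V] [DecidableEq V]
variable {ι : Type} [Fintype ι] {P Q : ι → Finset V} {r : ι → ℝ} {t : ℕ}

lemma L_continuous (ρ : Finset V) : Continuous fun p => L P Q r ρ p := E_continuous _

/-- A maximiser of the potential. -/
lemma exists_rho (hG : Good P Q r t) {p0 p1 lam : ℝ} (h0 : 0 ≤ p0) (h01 : p0 ≤ p1)
    (h1 : p1 ≤ 1) (hl : 0 < lam) :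
    ∃ ρ : Finset V, lam * ρ.card ≤ (p1 - p0) * t ∧
      ∀ D : Finset V, (∫ p in p0..p1, L P Q r (ρ ∪ D) p) - (∫ p in p0..p1, L P Q r ρ p) ≤
        lam * D.card := by
  obtain ⟨ρ, hρ⟩ := Finite.exists_max (fun ρ : Finset V =>
    (∫ p in p0..p1, L P Q r ρ p) - lam * ρ.card)
  refine ⟨ρ, ?_, ?_⟩
  · have h2 := hρ ∅
    have h3 : 0 ≤ ∫ p in p0..p1, L P Q r ∅ p := by
      apply intervalIntegral.integral_nonneg h01
      intro u hu
      exact L_nonneg hG (h0.trans hu.1) (hu.2.trans h1) _
    have h4 : ∫ p in p0..p1, L P Q r ρ p ≤ ∫ _ in p0..p1, (t : ℝ) := by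
      apply intervalIntegral.integral_mono_on h01
      · exact (L_continuous ρ).intervalIntegrable _ _
      · exact continuous_const.intervalIntegrable _ _
      · intro u hu
        exact L_le hG (h0.trans hu.1) (hu.2.trans h1) _
    rw [intervalIntegral.integral_const, smul_eq_mul] at h4
    simp only [Finset.card_empty, Nat.cast_zero, mul_zero, sub_zero] at h2
    linarith
  · intro D
    have h2 := hρ (ρ ∪ D)
    have h3 : ((ρ ∪ D).card : ℝ) ≤ ρ.card + D.card := by
      exact_mod_cast Finset.card_union_le ρ D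
    have h4 : lam * (ρ ∪ D).card ≤ lam * (ρ.card + D.card) :=
      mul_le_mul_of_nonneg_left h3 hl.le
    linarith

/-- At a maximiser, planting a spread random set hardly increases the expected logarithm. -/
lemma gain_bound (hG : Good P Q r t) {p0 p1 lam : ℝ} (h0 : 0 < p0)
    (h1 : p1 ≤ 1 / 2) (hl : 0 ≤ lam) (ρ : Finset V)
    (hρ : ∀ D : Finset V, (∫ p in p0..p1, L P Q r (ρ ∪ D) p) - (∫ p in p0..p1, L P Q r ρ p) ≤
        lam * D.card)
    {κ : Type*} (S : Finset κ) (π : κ → ℝ) (hπ : ∀ k ∈ S, 0 ≤ π k) (hπ1 : ∑ k ∈ S, π k = 1)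
    (D : κ → Finset V) (hDc : ∀ k, (D k).card ≤ t) (η : ℝ) (hη : 0 ≤ η)
    (hD : ∀ v, v ∉ ρ → ∑ k ∈ S, π k * (if v ∈ D k then (1 : ℝ) else 0) ≤ η)
    {q s : ℝ} (hs : 0 < s) (hq0 : p0 ≤ q - s) (hq1 : q ≤ p1) :
    ∑ k ∈ S, π k * L P Q r (ρ ∪ D k) q - L P Q r ρ q ≤
      lam * t / s + 2 * t ^ 2 * (s / p0) + 4 * t ^ 2 * s + 2 * t ^ 2 * η * ((p1 - p0) / s) := by
  have hq : 0 < q := by linarith
  have ht : (0:ℝ) ≤ t := Nat.cast_nonneg t
  set g : ℝ → ℝ := fun p => ∑ k ∈ S, π k * L P Q r (ρ ∪ D k) p - L P Q r ρ p with hg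
  have hgc : Continuous g := by
    apply Continuous.sub _ (L_continuous ρ)
    apply continuous_finsetSum
    intro k _
    exact continuous_const.mul (L_continuous _)
  -- upper bound of the integral
  have hup : ∫ p in p0..p1, g p ≤ lam * t := by
    have e1 : ∫ p in p0..p1, g p = ∑ k ∈ S, π k * ((∫ p in p0..p1, L P Q r (ρ ∪ D k) p) -
        ∫ p in p0..p1, L P Q r ρ p) := by
      have e2 : g = fun p => ∑ k ∈ S, π k * (L P Q r (ρ ∪ D k) p - L P Q r ρ p) := by
        ext p
        simp only [hg]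
        simp_rw [mul_sub]
        rw [Finset.sum_sub_distrib, ← Finset.sum_mul, hπ1, one_mul]
      rw [e2, intervalIntegral.integral_finsetSum]
      · apply Finset.sum_congr rfl
        intro k _
        rw [intervalIntegral.integral_const_mul, intervalIntegral.integral_sub]
        · exact (L_continuous _).intervalIntegrable _ _
        · exact (L_continuous _).intervalIntegrable _ _
      · intro k _
        apply Continuous.intervalIntegrable
        exact continuous_const.mul ((L_continuous _).sub (L_continuous _))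
    rw [e1]
    calc ∑ k ∈ S, π k * ((∫ p in p0..p1, L P Q r (ρ ∪ D k) p) - ∫ p in p0..p1, L P Q r ρ p)
        ≤ ∑ k ∈ S, π k * (lam * t) := by
          apply Finset.sum_le_sum
          intro k hk
          apply mul_le_mul_of_nonneg_left _ (hπ k hk)
          refine (hρ (D k)).trans ?_
          apply mul_le_mul_of_nonneg_left _ hl
          exact_mod_cast hDc k
      _ = lam * t := by rw [← Finset.sum_mul, hπ1, one_mul]
  -- lower bounds
  set a : ℝ := 2 * t * (t * η) with ha
  have ha0 : 0 ≤ a := by positivity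
  have hlow : ∀ p ∈ Set.Icc p0 p1, -a ≤ g p := by
    intro p hp
    have := L_spread hG S π hπ hπ1 D ρ η hη hD (p := p) (h0.le.trans hp.1)
      (hp.2.trans (by linarith))
    simp only [hg]
    linarith
  set c : ℝ := 2 * t ^ 2 * (s / p0) + 4 * t ^ 2 * s with hc
  have hmid : ∀ p ∈ Set.Icc (q - s) q, g q - c ≤ g p := by
    intro p hp
    have hp0 : 0 < p := lt_of_lt_of_le h0 (hq0.trans hp.1)
    have b1 : ∀ k ∈ S, π k * (L P Q r (ρ ∪ D k) q - L P Q r (ρ ∪ D k) p) ≤
        π k * (2 * t ^ 2 * (s / p0)) := by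
      intro k hk
      apply mul_le_mul_of_nonneg_left _ (hπ k hk)
      refine (L_up hG hp0 hp.2 (by linarith) _).trans ?_
      have b2 : 1 - p / q ≤ s / p0 := by
        have b3 : 1 - p / q = (q - p) / q := by field_simp
        rw [b3]
        apply div_le_div₀ hs.le _ h0 _
        · linarith [hp.1]
        · linarith
      calc 2 * (t:ℝ) * (t * (1 - p / q)) = 2 * t ^ 2 * (1 - p / q) := by ring
        _ ≤ 2 * t ^ 2 * (s / p0) := mul_le_mul_of_nonneg_left b2 (by positivity)
    have b4 := Finset.sum_le_sum b1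
    rw [← Finset.sum_mul, hπ1, one_mul] at b4
    have b5 : ∑ k ∈ S, π k * (L P Q r (ρ ∪ D k) q - L P Q r (ρ ∪ D k) p) =
        ∑ k ∈ S, π k * L P Q r (ρ ∪ D k) q - ∑ k ∈ S, π k * L P Q r (ρ ∪ D k) p := by
      rw [← Finset.sum_sub_distrib]
      apply Finset.sum_congr rfl
      intro k _
      ring
    rw [b5] at b4
    have b6 := L_down hG hp0.le hp.2 (by linarith) ρ
    have b7 : 2 * (t:ℝ) * (t * (2 * (q - p))) ≤ 4 * t ^ 2 * s := by
      have : q - p ≤ s := by linarith [hp.1]
      calc 2 * (t:ℝ) * (t * (2 * (q - p))) = 4 * t ^ 2 * (q - p) := by ring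
        _ ≤ 4 * t ^ 2 * s := mul_le_mul_of_nonneg_left this (by positivity)
    simp only [hg, hc]
    linarith
  have hi : ∀ x y : ℝ, IntervalIntegrable g MeasureTheory.volume x y :=
    fun x y => hgc.intervalIntegrable x y
  have hsplit : ∫ p in p0..p1, g p = (∫ p in p0..(q - s), g p) + (∫ p in (q - s)..q, g p) +
      ∫ p in q..p1, g p := by
    rw [intervalIntegral.integral_add_adjacent_intervals (hi _ _) (hi _ _),
      intervalIntegral.integral_add_adjacent_intervals (hi _ _) (hi _ _)]
  have i1 : -a * (q - s - p0) ≤ ∫ p in p0..(q - s), g p := by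
    have : ∫ _ in p0..(q - s), (-a) ≤ ∫ p in p0..(q - s), g p := by
      apply intervalIntegral.integral_mono_on hq0 (continuous_const.intervalIntegrable _ _) (hi _ _)
      intro p hp
      exact hlow p ⟨hp.1, by linarith [hp.2]⟩
    rw [intervalIntegral.integral_const, smul_eq_mul] at this
    linarith
  have i2 : (g q - c) * s ≤ ∫ p in (q - s)..q, g p := by
    have : ∫ _ in (q - s)..q, (g q - c) ≤ ∫ p in (q - s)..q, g p := by
      apply intervalIntegral.integral_mono_on (by linarith)
        (continuous_const.intervalIntegrable _ _) (hi _ _)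
      intro p hp
      exact hmid p hp
    rw [intervalIntegral.integral_const, smul_eq_mul] at this
    linarith
  have i3 : -a * (p1 - q) ≤ ∫ p in q..p1, g p := by
    have : ∫ _ in q..p1, (-a) ≤ ∫ p in q..p1, g p := by
      apply intervalIntegral.integral_mono_on hq1 (continuous_const.intervalIntegrable _ _) (hi _ _)
      intro p hp
      exact hlow p ⟨by linarith [hp.1], hp.2⟩
    rw [intervalIntegral.integral_const, smul_eq_mul] at this
    linarith
  have key : (g q - c) * s ≤ lam * t + a * (p1 - p0) := by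
    have : a * s ≥ 0 := by positivity
    nlinarith
  have key2 : g q - c ≤ (lam * t + a * (p1 - p0)) / s := by
    rw [le_div_iff₀ hs]; exact key
  have e : (lam * t + a * (p1 - p0)) / s = lam * t / s + 2 * t ^ 2 * η * ((p1 - p0) / s) := by
    rw [ha]; ring
  rw [e] at key2
  have : g q = ∑ k ∈ S, π k * L P Q r (ρ ∪ D k) q - L P Q r ρ q := rfl
  rw [← this]
  linarith

end Pool.Agent.BPath
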