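import Pool.Agent.Helper79.BPath.OneSided
import Pool.Agent.Helper79.BPath.Potential
import Pool.Agent.Helper79.BPath.Conical

/-!
# No total function extends approximate threshold in the postselected query model
-/

namespace Pool.Agent.BPath

open Finset

variable {V : Type} [Fintype V] [DecidableEq V]

/-- The low quantile of one class cannot be below twice the low quantile of the other. -/
theorem one_sided {ιA ιB : Type} [Fintype ιA] [Fintype ιB] (PA QA : ιA → Finset V) (rA : ιA → ℝ)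
    (PB QB : ιB → Finset V) (rB : ιB → ℝ) (t : ℕ)
    (hG : Good (Sum.elim PA PB) (Sum.elim QA QB) (Sum.elim rA rB) t)
    (A B W : Finset V → ℝ) (hA : ∀ x, A x = val PA QA rA x) (hB : ∀ x, B x = val PB QB rB x)
    (hW : ∀ x, W x = A x + B x)
    (hgap : ∀ x, 3 * B x ≤ A x ∨ 3 * A x ≤ B x)
    (ρ : Finset V) (q : ℝ) (hq0 : 0 < q) (hq1 : q ≤ 1)
    (hhalf : E q (fun x => if 3 * B (x ∪ ρ) ≤ A (x ∪ ρ) then (1 : ℝ) else 0) = 1 / 2)
    (γ : ℝ)
    (hgain : ∀ π : ιB → ℝ, (∀ k, 0 ≤ π k) → ∑ k, π k = 1 →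
      (∀ v, v ∉ ρ → ∑ k, π k * (if v ∈ PB k then (1 : ℝ) else 0) ≤ 3 * q) →
      ∑ k, π k * E q (fun x => Real.log (W ((x ∪ ρ) ∪ PB k))) -
        E q (fun x => Real.log (W (x ∪ ρ))) ≤ γ)
    (hsmall : 101 * (20 * (t * (3 * q)) + 21 * (γ + 2 * t * (t * (3 * q)))) + t * q ≤ 1 / 400)
    (s : ℝ) (hs : 0 < s)
    (hBlow : E q (fun x => if 3 * A (x ∪ ρ) ≤ B (x ∪ ρ) ∧ W (x ∪ ρ) < s then (1 : ℝ) else 0)
      ≤ 1 / 20)
    (hAhigh : 1 / 20 ≤ E q (fun x => if 3 * B (x ∪ ρ) ≤ A (x ∪ ρ) ∧ W (x ∪ ρ) ≤ s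
      then (1 : ℝ) else 0)) : False := by
  set a : ℕ → ℝ := fun k => E q (fun x => if 3 * B (x ∪ ρ) ≤ A (x ∪ ρ) ∧
    W (x ∪ ρ) ≤ s * (21 / 20) ^ k then (1 : ℝ) else 0) with ha
  have step : ∀ k, k < 12 → a k ≤ 1 / 400 + 77 / 100 * a (k + 1) := by
    intro k hk
    have h1 := one_step PA QA rA PB QB rB t hG A B W hA hB hW hgap ρ q hq0 hq1 hhalf γ hgain
      s hs hBlow (s * (21 / 20) ^ k) (by positivity) (by
        have h2 : (21 / 20 : ℝ) ^ (k + 1) ≤ (21 / 20) ^ 12 :=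
          pow_le_pow_right₀ (by norm_num) (by omega)
        have h3 : (21 / 20 : ℝ) ^ 12 ≤ 2 := by norm_num
        have h4 : s * (21 / 20) ^ k * (21 / 20) = s * (21 / 20) ^ (k + 1) := by ring
        rw [h4]
        nlinarith)
    have h5 : a (k + 1) = E q (fun x => if 3 * B (x ∪ ρ) ≤ A (x ∪ ρ) ∧
        W (x ∪ ρ) ≤ s * (21 / 20) ^ k * (21 / 20) then (1 : ℝ) else 0) := by
      simp only [ha]
      rw [show s * (21 / 20 : ℝ) ^ (k + 1) = s * (21 / 20) ^ k * (21 / 20) by ring]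
    rw [h5]
    simp only [ha]
    linarith
  have h12 : a 12 ≤ 1 / 2 := by
    rw [← hhalf]
    simp only [ha]
    apply E_mono hq0.le hq1
    intro x
    by_cases h : 3 * B (x ∪ ρ) ≤ A (x ∪ ρ)
    · rw [if_pos h]; split_ifs <;> norm_num
    · simp [h]
  have h0 : 1 / 20 ≤ a 0 := by
    simp only [ha, pow_zero, mul_one]
    exact hAhigh
  have s0 := step 0 (by norm_num)
  have s1 := step 1 (by norm_num)
  have s2 := step 2 (by norm_num)
  have s3 := step 3 (by norm_num)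
  have s4 := step 4 (by norm_num)
  have s5 := step 5 (by norm_num)
  have s6 := step 6 (by norm_num)
  have s7 := step 7 (by norm_num)
  have s8 := step 8 (by norm_num)
  have s9 := step 9 (by norm_num)
  have s10 := step 10 (by norm_num)
  have s11 := step 11 (by norm_num)
  clear_value a
  clear hAhigh hBlow hsmall hgain hhalf hgap hW hA hB hG step
  norm_num at s0 s1 s2 s3 s4 s5 s6 s7 s8 s9 s10 s11
  linarith

/-- The quantile: some class has mass at least `1/20` up to weight `s`, and neither has more than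
`1/20` below `s`. -/
lemma exists_quantile (W : Finset V → ℝ) (cA cB : Finset V → Prop) [DecidablePred cA]
    [DecidablePred cB] (ρ : Finset V) (q : ℝ) (hq0 : 0 ≤ q) (hq1 : q ≤ 1)
    (hA : E q (fun x => if cA (x ∪ ρ) then (1 : ℝ) else 0) = 1 / 2) :
    ∃ x0 : Finset V,
      (1 / 20 ≤ E q (fun x => if cA (x ∪ ρ) ∧ W (x ∪ ρ) ≤ W x0 then (1 : ℝ) else 0) ∨
       1 / 20 ≤ E q (fun x => if cB (x ∪ ρ) ∧ W (x ∪ ρ) ≤ W x0 then (1 : ℝ) else 0)) ∧
      E q (fun x => if cA (x ∪ ρ) ∧ W (x ∪ ρ) < W x0 then (1 : ℝ) else 0) ≤ 1 / 20 ∧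
      E q (fun x => if cB (x ∪ ρ) ∧ W (x ∪ ρ) < W x0 then (1 : ℝ) else 0) ≤ 1 / 20 := by
  classical
  set T : Finset (Finset V) := univ.filter fun x0 =>
    1 / 20 ≤ E q (fun x => if cA (x ∪ ρ) ∧ W (x ∪ ρ) ≤ W x0 then (1 : ℝ) else 0) ∨
       1 / 20 ≤ E q (fun x => if cB (x ∪ ρ) ∧ W (x ∪ ρ) ≤ W x0 then (1 : ℝ) else 0) with hT
  have hne : T.Nonempty := by
    obtain ⟨xm, hxm⟩ := Finite.exists_max W
    refine ⟨xm, ?_⟩
    rw [hT, Finset.mem_filter]
    refine ⟨Finset.mem_univ _, Or.inl ?_⟩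
    have : (fun x : Finset V => if cA (x ∪ ρ) ∧ W (x ∪ ρ) ≤ W xm then (1 : ℝ) else 0) =
        fun x => if cA (x ∪ ρ) then (1 : ℝ) else 0 := by
      ext x
      simp [hxm]
    rw [this, hA]
    norm_num
  obtain ⟨x0, hx0, hmin⟩ := Finset.exists_min_image T W hne
  have key : ∀ c : Finset V → Prop, ∀ [DecidablePred c],
      (∀ x1, 1 / 20 ≤ E q (fun x => if c (x ∪ ρ) ∧ W (x ∪ ρ) ≤ W x1 then (1 : ℝ) else 0) →
        x1 ∈ T) →
      E q (fun x => if c (x ∪ ρ) ∧ W (x ∪ ρ) < W x0 then (1 : ℝ) else 0) ≤ 1 / 20 := by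
    intro c _ hc
    by_cases hb : ∃ x, W x < W x0
    · obtain ⟨x1, hx1, hmax⟩ := Finset.exists_max_image (univ.filter fun x => W x < W x0) W
        (by obtain ⟨x, hx⟩ := hb; exact ⟨x, by simpa using hx⟩)
      have hx1' : W x1 < W x0 := (Finset.mem_filter.mp hx1).2
      have e : (fun x : Finset V => if c (x ∪ ρ) ∧ W (x ∪ ρ) < W x0 then (1 : ℝ) else 0) =
          fun x => if c (x ∪ ρ) ∧ W (x ∪ ρ) ≤ W x1 then (1 : ℝ) else 0 := by
        ext x
        have : W (x ∪ ρ) < W x0 ↔ W (x ∪ ρ) ≤ W x1 := by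
          constructor
          · intro h; exact hmax _ (by simpa using h)
          · intro h; exact lt_of_le_of_lt h hx1'
        simp only [this]
      rw [e]
      by_contra hcon
      push Not at hcon
      have := hmin x1 (hc x1 hcon.le)
      linarith
    · push Not at hb
      have e : (fun x : Finset V => if c (x ∪ ρ) ∧ W (x ∪ ρ) < W x0 then (1 : ℝ) else 0) =
          fun _ => 0 := by
        ext x
        rw [if_neg]
        rintro ⟨_, h⟩
        exact absurd h (not_lt.mpr (hb _))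
      rw [e, E_const]
      norm_num
  refine ⟨x0, (Finset.mem_filter.mp hx0).2, ?_, ?_⟩
  · apply key cA
    intro x1 h
    exact Finset.mem_filter.mpr ⟨Finset.mem_univ _, Or.inl h⟩
  · apply key cB
    intro x1 h
    exact Finset.mem_filter.mpr ⟨Finset.mem_univ _, Or.inr h⟩

/-- **The core.** -/
theorem core (t K : ℕ) (ht : 1 ≤ t)
    (hK : 10 ^ 20 * t ^ 4 ≤ K) (hN : 10 ^ 20 * K * t ^ 4 ≤ Fintype.card V)
    (acc rej : Finset V → ℝ) (ha : Conical t acc) (hr : Conical t rej)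
    (h1 : ∀ x, 1 ≤ acc x + rej x) (h2 : ∀ x, acc x + rej x ≤ 2 ^ t)
    (hgap : ∀ x, 3 * rej x ≤ acc x ∨ 3 * acc x ≤ rej x)
    (hlow : ∀ x, x.card ≤ K → 3 * acc x ≤ rej x)
    (hhigh : ∀ x, 16 * K ≤ x.card → 3 * rej x ≤ acc x) : False := by
  obtain ⟨ιA, _, PA, QA, rA, hrA, hPA, hQA, hA⟩ := ha
  obtain ⟨ιB, _, PB, QB, rB, hrB, hPB, hQB, hB⟩ := hr
  have hA' : ∀ x, acc x = val PA QA rA x := by
    intro x; rw [hA]; unfold val sat; rfl
  have hB' : ∀ x, rej x = val PB QB rB x := by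
    intro x; rw [hB]; unfold val sat; rfl
  have hG : Good (Sum.elim PA PB) (Sum.elim QA QB) (Sum.elim rA rB) t := by
    refine ⟨ht, ?_, ?_, ?_, ?_, ?_⟩
    · rintro (i | i)
      · exact hrA i
      · exact hrB i
    · rintro (i | i)
      · exact hPA i
      · exact hPB i
    · rintro (i | i)
      · exact hQA i
      · exact hQB i
    · intro x; rw [val_sum, ← hA', ← hB']; exact h1 x
    · intro x; rw [val_sum, ← hA', ← hB']; exact h2 x
  have hG' : Good (Sum.elim PB PA) (Sum.elim QB QA) (Sum.elim rB rA) t := by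
    refine ⟨ht, ?_, ?_, ?_, ?_, ?_⟩
    · rintro (i | i)
      · exact hrB i
      · exact hrA i
    · rintro (i | i)
      · exact hPB i
      · exact hPA i
    · rintro (i | i)
      · exact hQB i
      · exact hQA i
    · intro x; rw [val_sum, ← hA', ← hB', add_comm]; exact h1 x
    · intro x; rw [val_sum, ← hA', ← hB', add_comm]; exact h2 x
  set W : Finset V → ℝ := fun x => acc x + rej x with hW
  have hWv : ∀ x, val (Sum.elim PA PB) (Sum.elim QA QB) (Sum.elim rA rB) x = W x := by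
    intro x; rw [val_sum, ← hA', ← hB']
  have excl : ∀ x, 3 * rej x ≤ acc x → ¬ 3 * acc x ≤ rej x := by
    intro x h3 h4
    have := h1 x
    linarith
  -- numbers
  have htR : (1:ℝ) ≤ t := by exact_mod_cast ht
  have ht4 : (1:ℝ) ≤ (t:ℝ) ^ 4 := one_le_pow₀ htR
  have hKR : 10 ^ 20 * (t:ℝ) ^ 4 ≤ K := by exact_mod_cast hK
  set N : ℝ := (Fintype.card V : ℝ) with hNdef
  have hNR : 10 ^ 20 * (K:ℝ) * (t:ℝ) ^ 4 ≤ N := by
    rw [hNdef]; exact_mod_cast hN
  have hKpos : (10:ℝ) ^ 20 ≤ K := by nlinarith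
  have hK0 : (0:ℝ) < K := lt_of_lt_of_le (by norm_num) hKpos
  have hNK : 10 ^ 20 * (K:ℝ) ≤ N := by nlinarith
  have hN0 : 0 < N := by nlinarith
  set p0 : ℝ := K / (16 * N) with hp0
  set p1 : ℝ := 32 * K / N with hp1
  have hp00 : 0 < p0 := by positivity
  have hp01 : p1 = 512 * p0 := by rw [hp0, hp1]; field_simp; norm_num
  have hp1h : p1 ≤ 1 / 2 := by
    rw [hp1, div_le_iff₀ hN0]; linarith
  set lam : ℝ := 4 * (p1 - p0) * t / K with hlam
  have hp1p0 : p1 - p0 = 511 * p0 := by rw [hp01]; ring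
  have hlam0 : 0 < lam := by
    rw [hlam, hp1p0]; positivity
  obtain ⟨ρ, hρc, hρ⟩ := exists_rho hG (p0 := p0) (p1 := p1) (lam := lam) hp00.le (by linarith)
    (by linarith) hlam0
  have hρK : (ρ.card : ℝ) ≤ K / 4 := by
    have e : lam * (K / 4) = (p1 - p0) * t := by rw [hlam]; field_simp
    rw [← e] at hρc
    exact le_of_mul_le_mul_left hρc hlam0
  -- the critical density
  set f : ℝ → ℝ := fun p => E p (fun x => if 3 * rej (x ∪ ρ) ≤ acc (x ∪ ρ) then (1:ℝ) else 0)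
    with hf
  have hfc : Continuous f := E_continuous _
  have f0 : f (2 * p0) ≤ 1 / 2 := by
    have e1 : f (2 * p0) ≤ E (2 * p0) (fun x : Finset V => 4 / (3 * K) * (x.card : ℝ)) := by
      apply E_mono (by linarith) (by linarith)
      intro x
      split_ifs with h
      · have hc : K < (x ∪ ρ).card := by
          by_contra hcon
          exact excl _ h (hlow _ (not_lt.mp hcon))
        have hc2 : (K:ℝ) ≤ x.card + ρ.card := by
          have := Finset.card_union_le x ρ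
          exact_mod_cast (hc.le.trans this)
        rw [div_mul_eq_mul_div, le_div_iff₀ (by positivity)]
        linarith
      · positivity
    rw [E_mul_left, E_card] at e1
    have e2 : 4 / (3 * (K:ℝ)) * (Fintype.card V * (2 * p0)) = 1 / 6 := by
      rw [← hNdef, hp0]; field_simp; norm_num
    rw [e2] at e1
    linarith
  have f1 : 1 / 2 ≤ f p1 := by
    have hNp : N * p1 = 32 * K := by rw [hp1]; field_simp
    have e1 : 1 - f p1 ≤ E p1 (fun x : Finset V => 1 / (16 * K) ^ 2 *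
        ((x.card : ℝ) ^ 2 - 64 * K * x.card + 1024 * K ^ 2)) := by
      have : 1 - f p1 = E p1 (fun x => 1 - if 3 * rej (x ∪ ρ) ≤ acc (x ∪ ρ)
          then (1:ℝ) else 0) := by rw [E_sub, E_const]
      rw [this]
      apply E_mono (by linarith) (by linarith)
      intro x
      have hsq : (x.card : ℝ) ^ 2 - 64 * K * x.card + 1024 * K ^ 2 =
          ((x.card : ℝ) - 32 * K) ^ 2 := by ring
      rw [hsq]
      split_ifs with h
      · rw [sub_self]; positivity
      · have hc : (x ∪ ρ).card < 16 * K := by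
          by_contra hcon
          exact h (hhigh _ (not_lt.mp hcon))
        have hc2 : (x.card : ℝ) ≤ 16 * K := by
          have := Finset.card_le_card (Finset.subset_union_left : x ⊆ x ∪ ρ)
          exact_mod_cast (this.trans hc.le)
        rw [div_mul_eq_mul_div, one_mul, le_div_iff₀ (by positivity)]
        nlinarith
    have e2 : E p1 (fun x : Finset V => 1 / (16 * (K:ℝ)) ^ 2 *
        ((x.card : ℝ) ^ 2 - 64 * K * x.card + 1024 * K ^ 2)) =
        1 / (16 * (K:ℝ)) ^ 2 * (N * p1 + (N * N - N) * p1 ^ 2 - 64 * K * (N * p1) +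
          1024 * K ^ 2) := by
      rw [E_mul_left, E_add, E_sub, E_const, E_mul_left, E_card, E_card_sq]
    rw [e2] at e1
    have e3 : N * p1 + (N * N - N) * p1 ^ 2 - 64 * K * (N * p1) + 1024 * K ^ 2 =
        32 * K - 32 * K * p1 := by
      have : (N * N - N) * p1 ^ 2 = (N * p1) * (N * p1) - (N * p1) * p1 := by ring
      rw [this, hNp]; ring
    rw [e3] at e1
    have e4 : 1 / (16 * (K:ℝ)) ^ 2 * (32 * K - 32 * K * p1) ≤ 1 / 2 := by
      rw [div_mul_eq_mul_div, one_mul, div_le_div_iff₀ (by positivity) (by norm_num)]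
      have : 0 ≤ K * p1 := by
        have : 0 ≤ p1 := by linarith
        positivity
      nlinarith
    linarith
  obtain ⟨q, hq, hfq⟩ : ∃ q ∈ Set.Icc (2 * p0) p1, f q = 1 / 2 := by
    have := intermediate_value_Icc (by linarith : 2 * p0 ≤ p1) hfc.continuousOn
    exact this ⟨f0, f1⟩
  have hq0 : 0 < q := by linarith [hq.1]
  have hq1 : q ≤ 1 := by linarith [hq.2]
  -- the gain
  set σ : ℝ := 1 / (10 ^ 7 * t ^ 2) with hσ
  have hσ0 : 0 < σ := by positivity
  have hσ1 : σ ≤ 1 := by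
    rw [hσ, div_le_one (by positivity)]
    nlinarith [one_le_pow₀ htR (n := 2)]
  set γ : ℝ := lam * t / (σ * p0) + 2 * t ^ 2 * (σ * p0 / p0) + 4 * t ^ 2 * (σ * p0) +
    2 * t ^ 2 * (3 * q) * ((p1 - p0) / (σ * p0)) with hγ
  have gain : ∀ {κ : Type} [Fintype κ] (D : κ → Finset V), (∀ k, (D k).card ≤ t) →
      ∀ π : κ → ℝ, (∀ k, 0 ≤ π k) → ∑ k, π k = 1 →
      (∀ v, v ∉ ρ → ∑ k, π k * (if v ∈ D k then (1 : ℝ) else 0) ≤ 3 * q) →
      ∑ k, π k * E q (fun x => Real.log (W ((x ∪ ρ) ∪ D k))) -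
        E q (fun x => Real.log (W (x ∪ ρ))) ≤ γ := by
    intro κ _ D hD π hπ0 hπ1 hsp
    have := gain_bound hG hp00 hp1h hlam0.le ρ hρ univ π (fun k _ => hπ0 k) hπ1 D hD (3 * q)
      (by positivity) hsp (q := q) (s := σ * p0) (by positivity) (by nlinarith [hq.1]) hq.2
    simp only [L, hWv, ← Finset.union_assoc] at this
    exact this
  have hγle : γ ≤ 3 / 10 ^ 7 := by
    have g1 : lam * t / (σ * p0) ≤ 3 / 10 ^ 9 := by
      rw [hlam, hp1p0, hσ]
      have : 4 * (511 * p0) * t / K * t / (1 / (10 ^ 7 * (t:ℝ) ^ 2) * p0) =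
          2044 * 10 ^ 7 * t ^ 4 / K := by
        field_simp
        ring
      rw [this, div_le_div_iff₀ hK0 (by norm_num)]
      nlinarith
    have g2 : 2 * (t:ℝ) ^ 2 * (σ * p0 / p0) ≤ 2 / 10 ^ 7 := by
      rw [mul_div_assoc, div_self hp00.ne', mul_one, hσ]
      apply le_of_eq
      field_simp
    have g3 : 4 * (t:ℝ) ^ 2 * (σ * p0) ≤ 1 / 10 ^ 9 := by
      have e : 4 * (t:ℝ) ^ 2 * (σ * p0) = 4 / 10 ^ 7 * p0 := by
        rw [hσ]; field_simp
      rw [e]
      have : p0 ≤ 1 / 10 ^ 20 := by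
        rw [hp0, div_le_div_iff₀ (by positivity) (by norm_num)]
        linarith
      linarith
    have hqN : q * t ^ 4 ≤ 32 / 10 ^ 20 := by
      have e1 : q ≤ 32 * K / N := hq.2
      have e2 : q * t ^ 4 ≤ 32 * K / N * t ^ 4 := mul_le_mul_of_nonneg_right e1 (by positivity)
      refine e2.trans ?_
      rw [div_mul_eq_mul_div, div_le_div_iff₀ hN0 (by norm_num)]
      nlinarith
    have g4 : 2 * (t:ℝ) ^ 2 * (3 * q) * ((p1 - p0) / (σ * p0)) ≤ 1 / 10 ^ 8 := by
      have e : 2 * (t:ℝ) ^ 2 * (3 * q) * ((p1 - p0) / (σ * p0)) =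
          3066 * 10 ^ 7 * (q * t ^ 4) := by
        rw [hp1p0, hσ]
        field_simp
        ring
      rw [e]
      linarith
    rw [hγ]
    linarith
  have hqt : q * t ^ 4 ≤ 32 / 10 ^ 20 := by
    have e1 : q ≤ 32 * K / N := hq.2
    have e2 : q * t ^ 4 ≤ 32 * K / N * t ^ 4 := mul_le_mul_of_nonneg_right e1 (by positivity)
    refine e2.trans ?_
    rw [div_mul_eq_mul_div, div_le_div_iff₀ hN0 (by norm_num)]
    nlinarith
  have hqt1 : t * q ≤ 32 / 10 ^ 20 := by
    refine le_trans ?_ hqt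
    rw [mul_comm]
    apply mul_le_mul_of_nonneg_left _ hq0.le
    calc (t:ℝ) = t ^ 1 := (pow_one _).symm
      _ ≤ t ^ 4 := pow_le_pow_right₀ htR (by norm_num)
  have hqt2 : t * (t * q) ≤ 32 / 10 ^ 20 := by
    refine le_trans ?_ hqt
    have : (t:ℝ) * (t * q) = q * t ^ 2 := by ring
    rw [this]
    apply mul_le_mul_of_nonneg_left _ hq0.le
    exact pow_le_pow_right₀ htR (by norm_num)
  have hsmall : 101 * (20 * (t * (3 * q)) + 21 * (γ + 2 * t * (t * (3 * q)))) + t * q ≤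
      1 / 400 := by
    have e1 : (t:ℝ) * (3 * q) = 3 * (t * q) := by ring
    have e2 : 2 * (t:ℝ) * (t * (3 * q)) = 6 * (t * (t * q)) := by ring
    rw [e2, e1]
    linarith
  -- the quantile
  obtain ⟨x0, hx0, hAl, hBl⟩ := exists_quantile W (fun y => 3 * rej y ≤ acc y)
    (fun y => 3 * acc y ≤ rej y) ρ q hq0.le hq1 hfq
  have hW0 : 0 < W x0 := lt_of_lt_of_le one_pos (h1 x0)
  have hfq' : E q (fun x => if 3 * acc (x ∪ ρ) ≤ rej (x ∪ ρ) then (1 : ℝ) else 0) = 1 / 2 := by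
    have e : (fun x : Finset V => if 3 * acc (x ∪ ρ) ≤ rej (x ∪ ρ) then (1 : ℝ) else 0) =
        fun x => 1 - (if 3 * rej (x ∪ ρ) ≤ acc (x ∪ ρ) then (1 : ℝ) else 0) := by
      ext x
      rcases hgap (x ∪ ρ) with h | h
      · rw [if_neg (excl _ h), if_pos h]; norm_num
      · have h' : ¬ 3 * rej (x ∪ ρ) ≤ acc (x ∪ ρ) := fun h' => excl _ h' h
        rw [if_pos h, if_neg h']; norm_num
    have hfq2 : E q (fun x => if 3 * rej (x ∪ ρ) ≤ acc (x ∪ ρ) then (1 : ℝ) else 0) = 1 / 2 := hfq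
    rw [e, E_sub, E_const, hfq2]; norm_num
  rcases hx0 with hx0 | hx0
  · exact one_sided PA QA rA PB QB rB t hG acc rej W hA' hB' (fun _ => rfl) hgap ρ q hq0 hq1 hfq γ
      (fun π a b c => gain PB hPB π a b c) hsmall (W x0) hW0 hBl hx0
  · exact one_sided PB QB rB PA QA rA t hG' rej acc W hB' hA' (fun _ => add_comm _ _)
      (fun x => (hgap x).symm) ρ q hq0 hq1 hfq' γ
      (fun π a b c => gain PA hPA π a b c) hsmall (W x0) hW0 hAl hx0

end Pool.Agent.BPath
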