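import Mathlib

/-!
# Nondeterministic oracle machines and the class `BPP_path`

A machine has a finite control, finitely many stacks over a finite alphabet containing the two
bits (a work tape is a pair of stacks), and a query stack. In one step it reads its state and the
top symbols of all stacks; it then accepts, rejects, asks the oracle whether the word on the query
stack belongs to it, or moves nondeterministically to one of finitely many successors, replacing
the top symbol of every stack by a word.
-/

namespace Pool.Agent.BPath

/-- Symbols: the two bits and `s` further symbols. -/
abbrev Sym (s : ℕ) : Type := Bool ⊕ Fin s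

/-- A move: the new state, and for each stack the word replacing its top symbol. -/
abbrev Move (k s q : ℕ) : Type := Fin (q + 1) × (Fin (k + 2) → List (Sym s))

/-- One instruction. `branch a l` has the successors `a` and the members of the list `l`. -/
inductive Act (k s q : ℕ) : Type
  | accept : Act k s q
  | reject : Act k s q
  | query (yes no : Fin (q + 1)) : Act k s q
  | branch (a : Move k s q) (l : List (Move k s q)) : Act k s q

/-- A nondeterministic oracle machine with `k + 2` stacks (stack `0` is the input stack, stack `1`
is the query stack), `q + 1` states (the initial state is `0`) and `s` symbols besides the bits. -/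
structure Machine where
  k : ℕ
  s : ℕ
  q : ℕ
  act : Fin (q + 1) → (Fin (k + 2) → Option (Sym s)) → Act k s q

/-- A configuration: the state and the contents of the stacks (top symbol first). -/
structure Cfg (M : Machine) where
  state : Fin (M.q + 1)
  stack : Fin (M.k + 2) → List (Sym M.s)

namespace Machine

variable (M : Machine)

/-- The instruction carried out in configuration `c`. -/
def instr (c : Cfg M) : Act M.k M.s M.q :=
  M.act c.state (fun i => (c.stack i).head?)

/-- The configuration reached from `c` by the move `a`. -/
def move (c : Cfg M) (a : Move M.k M.s M.q) : Cfg M :=
  ⟨a.1, fun i => a.2 i ++ (c.stack i).tail⟩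

/-- The bits written on a stack. -/
def bits (l : List (Sym M.s)) : List Bool := l.filterMap Sum.getLeft?

/-- The initial configuration on input `w`. -/
def init (w : List Bool) : Cfg M :=
  ⟨0, fun i => if i = 0 then w.map Sum.inl else []⟩

open Classical in
/-- The configuration after a query to the oracle `X`. -/
noncomputable def answer (X : Set (List Bool)) (c : Cfg M) (yes no : Fin (M.q + 1)) : Cfg M :=
  ⟨if M.bits (c.stack 1) ∈ X then yes else no, c.stack⟩

/-- The number of computation paths of length at most `T` from the configuration `c`, relative to
the oracle `X`, whose outcome is `o`: `some true` for the accepting paths, `some false` for the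
rejecting paths, and `none` for the paths that have not halted within `T` steps. -/
noncomputable def paths (X : Set (List Bool)) (o : Option Bool) : ℕ → Cfg M → ℕ
  | 0, c =>
    match M.instr c with
    | .accept => if o = some true then 1 else 0
    | .reject => if o = some false then 1 else 0
    | .query _ _ => if o = none then 1 else 0
    | .branch _ _ => if o = none then 1 else 0
  | T + 1, c =>
    match M.instr c with
    | .accept => if o = some true then 1 else 0
    | .reject => if o = some false then 1 else 0
    | .query yes no => paths X o T (M.answer X c yes no)
    | .branch a l => paths X o T (M.move c a) + (l.map fun b => paths X o T (M.move c b)).sum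

/-- `M` runs in time `n ^ c + c`: for every oracle and every input all computation paths halt within
this time. -/
def RunsInTime (c : ℕ) : Prop :=
  ∀ (X : Set (List Bool)) (w : List Bool), M.paths X none (w.length ^ c + c) (M.init w) = 0

/-- Number of accepting paths of a machine that runs in time `n ^ c + c`. -/
noncomputable def acc (c : ℕ) (X : Set (List Bool)) (w : List Bool) : ℕ :=
  M.paths X (some true) (w.length ^ c + c) (M.init w)

/-- Number of rejecting paths of a machine that runs in time `n ^ c + c`. -/
noncomputable def rej (c : ℕ) (X : Set (List Bool)) (w : List Bool) : ℕ :=
  M.paths X (some false) (w.length ^ c + c) (M.init w)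

/-- The configuration in which a deterministic machine that asks no queries accepts, if this
happens within `T` steps. -/
def output : ℕ → Cfg M → Option (Cfg M)
  | 0, c =>
    match M.instr c with
    | .accept => some c
    | _ => none
  | T + 1, c =>
    match M.instr c with
    | .accept => some c
    | .branch a [] => output T (M.move c a)
    | _ => none

end Machine

/-- The class `BPP_path` relative to the oracle `X`. -/
def BPPpath (X : Set (List Bool)) : Set (Set (List Bool)) :=
  {L | ∃ (M : Machine) (c : ℕ), M.RunsInTime c ∧ ∀ w : List Bool,
    (w ∈ L → 4 * M.acc c X w > 3 * (M.acc c X w + M.rej c X w)) ∧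
    (w ∉ L → 4 * M.rej c X w > 3 * (M.acc c X w + M.rej c X w))}

/-- `f` is computable in polynomial time (by a machine without an oracle): a deterministic machine
without queries, started on `w`, accepts within `|w| ^ c + c` steps with `f w` on stack `1`. -/
def PolyTime (f : List Bool → List Bool) : Prop :=
  ∃ (M : Machine) (c : ℕ), ∀ w : List Bool, ∃ d : Cfg M,
    M.output (w.length ^ c + c) (M.init w) = some d ∧ M.bits (d.stack 1) = f w

/-- Polynomial-time many-one reducibility; the reductions do not query the oracle. -/
def Reduces (L C : Set (List Bool)) : Prop :=
  ∃ f : List Bool → List Bool, PolyTime f ∧ ∀ w, w ∈ L ↔ f w ∈ C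

/-- `C` is complete for `BPP_path` relative to `X`. -/
def Complete (X : Set (List Bool)) (C : Set (List Bool)) : Prop :=
  C ∈ BPPpath X ∧ ∀ L ∈ BPPpath X, Reduces L C

end Pool.Agent.BPath
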