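import Pool.Agent.Helper79.BPath.Prod

/-!
# Logarithms of conical juntas under random perturbations
-/

namespace Pool.Agent.BPath

open Finset

variable {V : Type} [Fintype V] [DecidableEq V]

/-- The `i`-th conjunction is satisfied. -/
def sat {ι : Type} (P Q : ι → Finset V) (i : ι) (x : Finset V) : Prop :=
  P i ⊆ x ∧ Disjoint (Q i) x

instance {ι : Type} (P Q : ι → Finset V) (i : ι) (x : Finset V) : Decidable (sat P Q i x) := by
  unfold sat; infer_instance

/-- The value of the conical junta. -/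
noncomputable def val {ι : Type} [Fintype ι] (P Q : ι → Finset V) (r : ι → ℝ) (x : Finset V) : ℝ :=
  ∑ i, if sat P Q i x then r i else 0

/-- The weight lost on the way from `X` to `X'`. -/
noncomputable def loss {ι : Type} [Fintype ι] (P Q : ι → Finset V) (r : ι → ℝ)
    (X X' : Finset V) : ℝ :=
  ∑ i, if sat P Q i X ∧ ¬ sat P Q i X' then r i else 0

section basics

variable {ι : Type} [Fintype ι] (P Q : ι → Finset V) (r : ι → ℝ)

omit [Fintype V] in
lemma loss_nonneg (hr : ∀ i, 0 ≤ r i) (X X' : Finset V) : 0 ≤ loss P Q r X X' := by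
  unfold loss
  apply Finset.sum_nonneg
  intro i _
  split_ifs
  · exact hr i
  · exact le_rfl

omit [Fintype V] in
lemma val_loss (hr : ∀ i, 0 ≤ r i) (X X' : Finset V) :
    val P Q r X - loss P Q r X X' ≤ val P Q r X' := by
  unfold val loss
  rw [← Finset.sum_sub_distrib]
  apply Finset.sum_le_sum
  intro i _
  have := hr i
  by_cases h1 : sat P Q i X <;> by_cases h2 : sat P Q i X' <;> simp [h1, h2, this]

lemma log_diff {t : ℕ} (ht : 1 ≤ t) {a b l : ℝ} (ha : 0 < a) (ha' : a ≤ 2 ^ t) (hb : 1 ≤ b)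
    (hl0 : 0 ≤ l) (hl : a - l ≤ b) : Real.log a - Real.log b ≤ 2 * t * (l / a) := by
  have ht' : (1 : ℝ) ≤ t := by exact_mod_cast ht
  set κ := l / a with hκ
  have hκ0 : 0 ≤ κ := div_nonneg hl0 ha.le
  have hla : l = κ * a := by rw [hκ]; field_simp
  by_cases h : κ ≤ 1 / 2
  · have h1 : 0 < 1 - κ := by linarith
    have h2 : a * (1 - κ) ≤ b := by rw [hla] at hl; linarith
    have h3 : Real.log (a * (1 - κ)) ≤ Real.log b :=
      Real.log_le_log (by positivity) h2
    rw [Real.log_mul ha.ne' h1.ne'] at h3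
    have h4 := Real.one_sub_inv_le_log_of_pos h1
    have h5 : (1 - κ)⁻¹ ≤ 1 + 2 * κ := by
      rw [inv_le_iff_one_le_mul₀ h1]
      nlinarith
    nlinarith
  · push Not at h
    have h1 : Real.log a ≤ t := by
      have h2 : Real.log a ≤ Real.log (2 ^ t) := Real.log_le_log ha ha'
      rw [Real.log_pow] at h2
      have h3 : Real.log 2 ≤ 1 := by
        have := Real.log_le_sub_one_of_pos (by norm_num : (0:ℝ) < 2)
        linarith
      nlinarith
    have h2 : 0 ≤ Real.log b := Real.log_nonneg hb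
    nlinarith

end basics

/-- Standing assumptions on the total weight `W`. -/
structure Good {ι : Type} [Fintype ι] (P Q : ι → Finset V) (r : ι → ℝ) (t : ℕ) : Prop where
  ht : 1 ≤ t
  r0 : ∀ i, 0 ≤ r i
  cP : ∀ i, (P i).card ≤ t
  cQ : ∀ i, (Q i).card ≤ t
  lo : ∀ x, 1 ≤ val P Q r x
  hi : ∀ x, val P Q r x ≤ 2 ^ t

section

variable {ι : Type} [Fintype ι] {P Q : ι → Finset V} {r : ι → ℝ} {t : ℕ}

omit [Fintype V] in
lemma Good.pos (hG : Good P Q r t) (x : Finset V) : 0 < val P Q r x :=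
  lt_of_lt_of_le one_pos (hG.lo x)

omit [Fintype V] in
/-- The relative loss, averaged. -/
lemma avg_loss (hG : Good P Q r t) {κ : Type*} (s : Finset κ) (π : κ → ℝ)
    (X : Finset V) (X' : κ → Finset V) (c : ℝ)
    (hc : ∀ i, sat P Q i X → ∑ k ∈ s, π k * (if sat P Q i (X' k) then (0 : ℝ) else 1) ≤ c) :
    ∑ k ∈ s, π k * (loss P Q r X (X' k) / val P Q r X) ≤ c := by
  have hW := hG.pos X
  have h1 : ∑ k ∈ s, π k * (loss P Q r X (X' k) / val P Q r X) =
      (∑ k ∈ s, π k * loss P Q r X (X' k)) / val P Q r X := by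
    rw [Finset.sum_div]
    apply Finset.sum_congr rfl
    intro k _
    ring
  rw [h1, div_le_iff₀ hW]
  have h2 : ∑ k ∈ s, π k * loss P Q r X (X' k) =
      ∑ i, (if sat P Q i X then r i else 0) *
        ∑ k ∈ s, π k * (if sat P Q i (X' k) then (0 : ℝ) else 1) := by
    unfold loss
    simp_rw [Finset.mul_sum]
    rw [Finset.sum_comm]
    apply Finset.sum_congr rfl; intro i _
    apply Finset.sum_congr rfl; intro k _
    by_cases h1 : sat P Q i X <;> by_cases h2 : sat P Q i (X' k) <;> simp [h1, h2, mul_comm]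
  rw [h2]
  unfold val
  rw [Finset.mul_sum]
  apply Finset.sum_le_sum
  intro i _
  by_cases h : sat P Q i X
  · simp only [h, if_true]
    rw [mul_comm]
    exact mul_le_mul_of_nonneg_right (hc i h) (hG.r0 i)
  · simp [h]

omit [Fintype V] in
/-- The loss of logarithm, averaged. -/
lemma avg_log (hG : Good P Q r t) {κ : Type*} (s : Finset κ) (π : κ → ℝ) (hπ : ∀ k ∈ s, 0 ≤ π k)
    (X : Finset V) (X' : κ → Finset V) (c : ℝ)
    (hc : ∀ i, sat P Q i X → ∑ k ∈ s, π k * (if sat P Q i (X' k) then (0 : ℝ) else 1) ≤ c) :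
    ∑ k ∈ s, π k * (Real.log (val P Q r X) - Real.log (val P Q r (X' k))) ≤ 2 * t * c := by
  have h1 : ∑ k ∈ s, π k * (Real.log (val P Q r X) - Real.log (val P Q r (X' k))) ≤
      ∑ k ∈ s, π k * (2 * t * (loss P Q r X (X' k) / val P Q r X)) := by
    apply Finset.sum_le_sum
    intro k hk
    apply mul_le_mul_of_nonneg_left _ (hπ k hk)
    exact log_diff hG.ht (hG.pos X) (hG.hi X) (hG.lo _) (loss_nonneg P Q r hG.r0 _ _)
      (val_loss P Q r hG.r0 _ _)
  have h2 : ∑ k ∈ s, π k * (2 * t * (loss P Q r X (X' k) / val P Q r X)) =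
      2 * t * ∑ k ∈ s, π k * (loss P Q r X (X' k) / val P Q r X) := by
    rw [Finset.mul_sum]
    apply Finset.sum_congr rfl
    intro k _
    ring
  rw [h2] at h1
  refine h1.trans ?_
  exact mul_le_mul_of_nonneg_left (avg_loss hG s π X X' c hc) (by positivity)

/-- The same with a random set. -/
lemma E_log (hG : Good P Q r t) {p : ℝ} (h0 : 0 ≤ p) (h1 : p ≤ 1)
    (X : Finset V) (X' : Finset V → Finset V) (c : ℝ)
    (hc : ∀ i, sat P Q i X → E p (fun y => if sat P Q i (X' y) then (0 : ℝ) else 1) ≤ c) :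
    Real.log (val P Q r X) - E p (fun y => Real.log (val P Q r (X' y))) ≤ 2 * t * c := by
  have h := avg_log hG (univ : Finset (V → Bool)) (fun ω => ∏ i, wt p (ω i))
    (fun ω _ => Finset.prod_nonneg fun i _ => wt_nonneg h0 h1 _) X (fun ω => X' (supp ω)) c hc
  have h2 : Real.log (val P Q r X) - E p (fun y => Real.log (val P Q r (X' y))) =
      E p (fun y => Real.log (val P Q r X) - Real.log (val P Q r (X' y))) := by
    rw [E_sub, E_const]
  rw [h2]
  exact h

/-- The expected logarithm. -/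
noncomputable def L (P Q : ι → Finset V) (r : ι → ℝ) (ρ : Finset V) (p : ℝ) : ℝ :=
  E p (fun x => Real.log (val P Q r (x ∪ ρ)))

lemma L_nonneg (hG : Good P Q r t) {p : ℝ} (h0 : 0 ≤ p) (h1 : p ≤ 1) (ρ : Finset V) :
    0 ≤ L P Q r ρ p :=
  E_nonneg h0 h1 fun _ => Real.log_nonneg (hG.lo _)

lemma L_le (hG : Good P Q r t) {p : ℝ} (h0 : 0 ≤ p) (h1 : p ≤ 1) (ρ : Finset V) :
    L P Q r ρ p ≤ t := by
  have : L P Q r ρ p ≤ E (V := V) p (fun _ => (t : ℝ)) := by
    apply E_mono h0 h1
    intro x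
    have h2 : Real.log (val P Q r (x ∪ ρ)) ≤ Real.log (2 ^ t) :=
      Real.log_le_log (hG.pos _) (hG.hi _)
    rw [Real.log_pow] at h2
    have h3 : Real.log 2 ≤ 1 := by
      have := Real.log_le_sub_one_of_pos (by norm_num : (0:ℝ) < 2)
      linarith
    have : (0:ℝ) ≤ t := Nat.cast_nonneg t
    nlinarith
  rwa [E_const] at this

/-- Union bound: a set of at most `t` points. -/
lemma E_union_bound {p : ℝ} (h0 : 0 ≤ p) (h1 : p ≤ 1) (S : Finset V) (g : Finset V → ℝ)
    (hg : ∀ x, g x ≤ ∑ v ∈ S, if v ∈ x then (1 : ℝ) else 0) : E p g ≤ S.card * p := by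
  have := E_mono h0 h1 hg
  rw [E_sum] at this
  simpa [E_mem] using this

lemma E_union_bound' {p : ℝ} (h0 : 0 ≤ p) (h1 : p ≤ 1) (S : Finset V) (g : Finset V → ℝ)
    (hg : ∀ x, g x ≤ ∑ v ∈ S, if v ∈ x then (0 : ℝ) else 1) : E p g ≤ S.card * (1 - p) := by
  have := E_mono h0 h1 hg
  rw [E_sum] at this
  have h2 : ∀ v ∈ S, E p (fun x => if v ∈ x then (0:ℝ) else 1) = 1 - p := fun v _ => E_notMem p v
  rw [Finset.sum_congr rfl h2, Finset.sum_const, nsmul_eq_mul] at this
  exact this

lemma L_up (hG : Good P Q r t) {p p' : ℝ} (hp : 0 < p) (hpp : p ≤ p') (hp' : p' ≤ 1)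
    (ρ : Finset V) : L P Q r ρ p' - L P Q r ρ p ≤ 2 * t * (t * (1 - p / p')) := by
  have hp'0 : 0 < p' := lt_of_lt_of_le hp hpp
  have hr0 : 0 ≤ p / p' := by positivity
  have hr1 : p / p' ≤ 1 := by rw [div_le_one hp'0]; exact hpp
  have h1 : L P Q r ρ p = E p' (fun x => E (p / p') (fun y =>
      Real.log (val P Q r ((x ∩ y) ∪ ρ)))) := by
    have := E_inter (V := V) p' (p / p') (fun z => Real.log (val P Q r (z ∪ ρ)))
    rw [mul_div_cancel₀ _ hp'0.ne'] at this
    rw [this]; rfl
  rw [h1, L, ← E_sub]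
  have h2 : ∀ x : Finset V, Real.log (val P Q r (x ∪ ρ)) - E (p / p') (fun y =>
      Real.log (val P Q r ((x ∩ y) ∪ ρ))) ≤ 2 * t * (t * (1 - p / p')) := by
    intro x
    apply E_log hG hr0 hr1
    intro i hi
    have h3 : E (p / p') (fun y => if sat P Q i ((x ∩ y) ∪ ρ) then (0:ℝ) else 1) ≤
        (P i).card * (1 - p / p') := by
      apply E_union_bound' hr0 hr1
      intro y
      by_cases hy : P i ⊆ y
      · have : sat P Q i ((x ∩ y) ∪ ρ) := by
          refine ⟨?_, ?_⟩
          · intro v hv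
            have := hi.1 hv
            rw [Finset.mem_union] at this ⊢
            rcases this with h | h
            · left; exact Finset.mem_inter.mpr ⟨h, hy hv⟩
            · right; exact h
          · apply Disjoint.mono_right _ hi.2
            exact Finset.union_subset_union Finset.inter_subset_left le_rfl
        rw [if_pos this]
        apply Finset.sum_nonneg
        intro v _
        split_ifs <;> norm_num
      · obtain ⟨v, hv, hvy⟩ := Finset.not_subset.mp hy
        have h4 : (1:ℝ) ≤ ∑ v ∈ P i, if v ∈ y then (0 : ℝ) else 1 := by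
          have := Finset.single_le_sum (f := fun v => if v ∈ y then (0 : ℝ) else 1)
            (fun v _ => by split_ifs <;> norm_num) hv
          simpa [hvy] using this
        split_ifs <;> linarith
    refine h3.trans ?_
    apply mul_le_mul_of_nonneg_right _ (by linarith)
    exact_mod_cast hG.cP i
  have h3 := E_mono (V := V) hp'0.le hp' h2
  rwa [E_const] at h3

lemma L_down (hG : Good P Q r t) {p p' : ℝ} (hp : 0 ≤ p) (hpp : p ≤ p') (hp' : p' ≤ 1 / 2)
    (ρ : Finset V) : L P Q r ρ p - L P Q r ρ p' ≤ 2 * t * (t * (2 * (p' - p))) := by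
  set s := (p' - p) / (1 - p) with hs
  have h1p : 0 < 1 - p := by linarith
  have hs0 : 0 ≤ s := div_nonneg (by linarith) h1p.le
  have hs1 : s ≤ 1 := by rw [hs, div_le_one h1p]; linarith
  have hs2 : s ≤ 2 * (p' - p) := by
    rw [hs, div_le_iff₀ h1p]; nlinarith
  have hq : 1 - (1 - p) * (1 - s) = p' := by
    rw [hs]; field_simp; ring
  have h1 : L P Q r ρ p' = E p (fun x => E s (fun y =>
      Real.log (val P Q r ((x ∪ y) ∪ ρ)))) := by
    have := E_union (V := V) p s (fun z => Real.log (val P Q r (z ∪ ρ)))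
    rw [hq] at this
    rw [this]; rfl
  rw [h1, L, ← E_sub]
  have h2 : ∀ x : Finset V, Real.log (val P Q r (x ∪ ρ)) - E s (fun y =>
      Real.log (val P Q r ((x ∪ y) ∪ ρ))) ≤ 2 * t * (t * (2 * (p' - p))) := by
    intro x
    apply E_log hG hs0 hs1
    intro i hi
    have h3 : E s (fun y => if sat P Q i ((x ∪ y) ∪ ρ) then (0:ℝ) else 1) ≤
        (Q i).card * s := by
      apply E_union_bound hs0 hs1
      intro y
      by_cases hy : Disjoint (Q i) y
      · have : sat P Q i ((x ∪ y) ∪ ρ) := by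
          refine ⟨hi.1.trans ?_, ?_⟩
          · exact Finset.union_subset_union Finset.subset_union_left le_rfl
          · rw [Finset.disjoint_union_right, Finset.disjoint_union_right]
            have := hi.2
            rw [Finset.disjoint_union_right] at this
            exact ⟨⟨this.1, hy⟩, this.2⟩
        rw [if_pos this]
        apply Finset.sum_nonneg
        intro v _
        split_ifs <;> norm_num
      · obtain ⟨v, hv, hvy⟩ := Finset.not_disjoint_iff.mp hy
        have h4 : (1:ℝ) ≤ ∑ v ∈ Q i, if v ∈ y then (1 : ℝ) else 0 := by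
          have := Finset.single_le_sum (f := fun v => if v ∈ y then (1 : ℝ) else 0)
            (fun v _ => by split_ifs <;> norm_num) hv
          simpa [hvy] using this
        split_ifs <;> linarith
    refine h3.trans ?_
    have h5 : ((Q i).card : ℝ) ≤ t := by exact_mod_cast hG.cQ i
    calc ((Q i).card : ℝ) * s ≤ t * s := mul_le_mul_of_nonneg_right h5 hs0
      _ ≤ t * (2 * (p' - p)) := mul_le_mul_of_nonneg_left hs2 (Nat.cast_nonneg t)
  have h3 := E_mono (V := V) hp (by linarith) h2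
  rwa [E_const] at h3

omit [Fintype V] in
/-- Planting a spread random set destroys every satisfied conjunction with small probability. -/
lemma spread_sat (hG : Good P Q r t) {κ : Type*} (s : Finset κ) (π : κ → ℝ)
    (hπ : ∀ k ∈ s, 0 ≤ π k)
    (D : κ → Finset V) (ρ : Finset V) (η : ℝ)
    (hD : ∀ v, v ∉ ρ → ∑ k ∈ s, π k * (if v ∈ D k then (1 : ℝ) else 0) ≤ η)
    (X : Finset V) (hX : ρ ⊆ X) (i : ι) (hi : sat P Q i X) (hη : 0 ≤ η) :
    ∑ k ∈ s, π k * (if sat P Q i (X ∪ D k) then (0 : ℝ) else 1) ≤ t * η := by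
  have h1 : ∀ k ∈ s, π k * (if sat P Q i (X ∪ D k) then (0 : ℝ) else 1) ≤
      ∑ v ∈ Q i, π k * (if v ∈ D k then (1 : ℝ) else 0) := by
    intro k hk
    rw [← Finset.mul_sum]
    apply mul_le_mul_of_nonneg_left _ (hπ k hk)
    by_cases hy : Disjoint (Q i) (D k)
    · have : sat P Q i (X ∪ D k) := by
        refine ⟨hi.1.trans Finset.subset_union_left, ?_⟩
        rw [Finset.disjoint_union_right]
        exact ⟨hi.2, hy⟩
      rw [if_pos this]
      apply Finset.sum_nonneg
      intro v _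
      split_ifs <;> norm_num
    · obtain ⟨v, hv, hvy⟩ := Finset.not_disjoint_iff.mp hy
      have h4 : (1:ℝ) ≤ ∑ v ∈ Q i, if v ∈ D k then (1 : ℝ) else 0 := by
        have := Finset.single_le_sum (f := fun v => if v ∈ D k then (1 : ℝ) else 0)
          (fun v _ => by split_ifs <;> norm_num) hv
        simpa [hvy] using this
      split_ifs <;> linarith
  refine (Finset.sum_le_sum h1).trans ?_
  rw [Finset.sum_comm]
  have h2 : ∀ v ∈ Q i, ∑ k ∈ s, π k * (if v ∈ D k then (1 : ℝ) else 0) ≤ η := by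
    intro v hv
    apply hD
    intro hvρ
    exact Finset.disjoint_left.mp hi.2 hv (hX hvρ)
  refine (Finset.sum_le_sum h2).trans ?_
  rw [Finset.sum_const, nsmul_eq_mul]
  exact mul_le_mul_of_nonneg_right (by exact_mod_cast hG.cQ i) hη

lemma L_spread (hG : Good P Q r t) {κ : Type*} (s : Finset κ) (π : κ → ℝ)
    (hπ : ∀ k ∈ s, 0 ≤ π k) (hπ1 : ∑ k ∈ s, π k = 1)
    (D : κ → Finset V) (ρ : Finset V) (η : ℝ) (hη : 0 ≤ η)
    (hD : ∀ v, v ∉ ρ → ∑ k ∈ s, π k * (if v ∈ D k then (1 : ℝ) else 0) ≤ η)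
    {p : ℝ} (h0 : 0 ≤ p) (h1 : p ≤ 1) :
    L P Q r ρ p - ∑ k ∈ s, π k * L P Q r (ρ ∪ D k) p ≤ 2 * t * (t * η) := by
  have h2 : L P Q r ρ p - ∑ k ∈ s, π k * L P Q r (ρ ∪ D k) p =
      E p (fun x => ∑ k ∈ s, π k * (Real.log (val P Q r (x ∪ ρ)) -
        Real.log (val P Q r ((x ∪ ρ) ∪ D k)))) := by
    rw [E_sum]
    have h3 : ∀ k ∈ s, E p (fun x => π k * (Real.log (val P Q r (x ∪ ρ)) -
        Real.log (val P Q r ((x ∪ ρ) ∪ D k)))) = π k * L P Q r ρ p -
        π k * L P Q r (ρ ∪ D k) p := by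
      intro k _
      rw [E_mul_left, E_sub]
      unfold L
      simp_rw [Finset.union_assoc]
      ring
    rw [Finset.sum_congr rfl h3, Finset.sum_sub_distrib, ← Finset.sum_mul, hπ1, one_mul]
  rw [h2]
  have h4 : ∀ x : Finset V, ∑ k ∈ s, π k * (Real.log (val P Q r (x ∪ ρ)) -
        Real.log (val P Q r ((x ∪ ρ) ∪ D k))) ≤ 2 * t * (t * η) := by
    intro x
    apply avg_log hG s π hπ
    intro i hi
    exact spread_sat hG s π hπ D ρ η hD (x ∪ ρ) Finset.subset_union_right i hi hη
  have h5 := E_mono (V := V) h0 h1 h4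
  rwa [E_const] at h5

end

end Pool.Agent.BPath
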