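import Pool.Agent.Helper79.BPath.Lip

/-!
# The one-sided comparison of low quantiles
-/

namespace Pool.Agent.BPath

open Finset

variable {V : Type} [Fintype V] [DecidableEq V]

omit [Fintype V] in
lemma val_sum {ιA ιB : Type} [Fintype ιA] [Fintype ιB] (PA QA : ιA → Finset V) (rA : ιA → ℝ)
    (PB QB : ιB → Finset V) (rB : ιB → ℝ) (x : Finset V) :
    val (Sum.elim PA PB) (Sum.elim QA QB) (Sum.elim rA rB) x =
      val PA QA rA x + val PB QB rB x := by
  unfold val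
  rw [Fintype.sum_sum_type]
  rfl

omit [Fintype V] in
lemma loss_sum {ιA ιB : Type} [Fintype ιA] [Fintype ιB] (PA QA : ιA → Finset V) (rA : ιA → ℝ)
    (PB QB : ιB → Finset V) (rB : ιB → ℝ) (x y : Finset V) :
    loss (Sum.elim PA PB) (Sum.elim QA QB) (Sum.elim rA rB) x y =
      loss PA QA rA x y + loss PB QB rB x y := by
  unfold loss
  rw [Fintype.sum_sum_type]
  rfl

/-- The key inequality: the accepting mass at low weights decreases geometrically. -/
theorem one_step {ιA ιB : Type} [Fintype ιA] [Fintype ιB] (PA QA : ιA → Finset V) (rA : ιA → ℝ)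
    (PB QB : ιB → Finset V) (rB : ιB → ℝ) (t : ℕ)
    (hG : Good (Sum.elim PA PB) (Sum.elim QA QB) (Sum.elim rA rB) t)
    (A B W : Finset V → ℝ) (hA : ∀ x, A x = val PA QA rA x) (hB : ∀ x, B x = val PB QB rB x)
    (hW : ∀ x, W x = A x + B x)
    (hgap : ∀ x, 3 * B x ≤ A x ∨ 3 * A x ≤ B x)
    (ρ : Finset V) (q : ℝ) (hq0 : 0 < q) (hq1 : q ≤ 1)
    (hhalf : E q (fun x => if 3 * B (x ∪ ρ) ≤ A (x ∪ ρ) then (1 : ℝ) else 0) = 1 / 2)
    (γ : ℝ)
    (hgain : ∀ π : ιB → ℝ, (∀ k, 0 ≤ π k) → ∑ k, π k = 1 →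
      (∀ v, v ∉ ρ → ∑ k, π k * (if v ∈ PB k then (1 : ℝ) else 0) ≤ 3 * q) →
      ∑ k, π k * E q (fun x => Real.log (W ((x ∪ ρ) ∪ PB k))) -
        E q (fun x => Real.log (W (x ∪ ρ))) ≤ γ)
    (s : ℝ) (hs : 0 < s)
    (hBlow : E q (fun x => if 3 * A (x ∪ ρ) ≤ B (x ∪ ρ) ∧ W (x ∪ ρ) < s then (1 : ℝ) else 0)
      ≤ 1 / 20)
    (u : ℝ) (hu0 : 0 ≤ u) (hu : u * (21 / 20) ≤ 2 * s) :
    E q (fun x => if 3 * B (x ∪ ρ) ≤ A (x ∪ ρ) ∧ W (x ∪ ρ) ≤ u then (1 : ℝ) else 0) ≤
      101 * (20 * (t * (3 * q)) + 21 * (γ + 2 * t * (t * (3 * q)))) + t * q + 77 / 100 *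
      E q (fun x => if 3 * B (x ∪ ρ) ≤ A (x ∪ ρ) ∧ W (x ∪ ρ) ≤ u * (21 / 20)
        then (1 : ℝ) else 0) := by
  have hq0' := hq0.le
  have hA0 : ∀ x, 0 ≤ A x := by
    intro x; rw [hA]; unfold val
    apply Finset.sum_nonneg; intro i _
    split_ifs
    · exact hG.r0 (Sum.inl i)
    · exact le_rfl
  have hB0 : ∀ x, 0 ≤ B x := by
    intro x; rw [hB]; unfold val
    apply Finset.sum_nonneg; intro i _
    split_ifs
    · exact hG.r0 (Sum.inr i)
    · exact le_rfl
  have hrB : ∀ j, 0 ≤ rB j := fun j => hG.r0 (Sum.inr j)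
  have hWv : ∀ x, W x = val (Sum.elim PA PB) (Sum.elim QA QB) (Sum.elim rA rB) x := by
    intro x; rw [val_sum, hW, hA, hB]
  have hW1 : ∀ x, 1 ≤ W x := fun x => by rw [hWv]; exact hG.lo x
  have hWpos : ∀ x, 0 < W x := fun x => lt_of_lt_of_le one_pos (hW1 x)
  have ht0 : (0:ℝ) ≤ t := Nat.cast_nonneg t
  -- classes
  have cA : ∀ x, 3 * B x ≤ A x → B x ≤ W x / 4 := by
    intro x hx; rw [hW]; linarith
  have cA' : ∀ x, 3 * B x ≤ A x → 3 / 4 * W x ≤ A x := by
    intro x hx; rw [hW]; linarith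
  have cB' : ∀ x, 3 * A x ≤ B x → 3 / 4 * W x ≤ B x := by
    intro x hx; rw [hW]; linarith
  have excl : ∀ x, 3 * B x ≤ A x → ¬ 3 * A x ≤ B x := by
    intro x h1 h2
    have := hW1 x
    rw [hW] at this
    linarith
  have compl : ∀ x, (if 3 * A x ≤ B x then (1:ℝ) else 0) = 1 -
      (if 3 * B x ≤ A x then (1:ℝ) else 0) := by
    intro x
    rcases hgap x with h | h
    · rw [if_neg (excl x h), if_pos h]; norm_num
    · have h' : ¬ 3 * B x ≤ A x := fun h' => excl x h' h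
      rw [if_pos h, if_neg h']; norm_num
  have hhalfB : E q (fun x => if 3 * A (x ∪ ρ) ≤ B (x ∪ ρ) then (1 : ℝ) else 0) = 1 / 2 := by
    have : (fun x : Finset V => if 3 * A (x ∪ ρ) ≤ B (x ∪ ρ) then (1 : ℝ) else 0) =
        fun x => 1 - (if 3 * B (x ∪ ρ) ≤ A (x ∪ ρ) then (1 : ℝ) else 0) := by
      ext x; exact compl _
    rw [this, E_sub, E_const, hhalf]; norm_num
  -- the conditioning event
  obtain ⟨G, hGdef⟩ : ∃ G : Finset V → ℝ, ∀ x, G x =
      if 3 * A (x ∪ ρ) ≤ B (x ∪ ρ) ∧ s ≤ W (x ∪ ρ) then 1 else 0 := ⟨_, fun _ => rfl⟩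
  have hG01 : ∀ x, G x = 0 ∨ G x = 1 := by intro x; rw [hGdef]; split_ifs <;> simp
  have hG0 : ∀ x, 0 ≤ G x := by intro x; rcases hG01 x with h | h <;> rw [h]; norm_num
  obtain ⟨Bm, hBm⟩ : ∃ Bm : ℝ, Bm = E q G := ⟨_, rfl⟩
  have hBm' : 9 / 20 ≤ Bm := by
    have h1 : E q (fun x => if 3 * A (x ∪ ρ) ≤ B (x ∪ ρ) then (1 : ℝ) else 0) ≤
        E q (fun x => G x + (if 3 * A (x ∪ ρ) ≤ B (x ∪ ρ) ∧ W (x ∪ ρ) < s then (1 : ℝ) else 0)) := by
      apply E_mono hq0' hq1
      intro x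
      rw [hGdef]
      by_cases h : 3 * A (x ∪ ρ) ≤ B (x ∪ ρ)
      · rw [if_pos h]
        by_cases h2 : s ≤ W (x ∪ ρ)
        · rw [if_pos ⟨h, h2⟩]; split_ifs <;> norm_num
        · rw [if_neg (fun h3 => h2 h3.2), if_pos ⟨h, not_le.mp h2⟩]; norm_num
      · rw [if_neg h, if_neg (fun h3 => h h3.1), if_neg (fun h3 => h h3.1)]; norm_num
    rw [E_add, hhalfB, ← hBm] at h1
    linarith
  have hBm0 : 0 < Bm := by linarith
  -- the distribution on rejecting terms
  obtain ⟨g, hg⟩ : ∃ g : ιB → Finset V → ℝ, ∀ j x, g j x =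
      G x * ((if sat PB QB j (x ∪ ρ) then rB j else 0) / B (x ∪ ρ)) := ⟨_, fun _ _ => rfl⟩
  have hg0 : ∀ j x, 0 ≤ g j x := by
    intro j x
    rw [hg]
    apply mul_nonneg (hG0 x)
    apply div_nonneg _ (hB0 _)
    split_ifs
    · exact hrB j
    · exact le_rfl
  obtain ⟨π, hπdef⟩ : ∃ π : ιB → ℝ, ∀ j, π j = E q (g j) / Bm := ⟨_, fun _ => rfl⟩
  have hπ0 : ∀ j, 0 ≤ π j := by
    intro j
    rw [hπdef]
    exact div_nonneg (E_nonneg hq0' hq1 (hg0 j)) hBm0.le
  have hGB : ∀ x, G x ≠ 0 → 0 < B (x ∪ ρ) ∧ 3 * A (x ∪ ρ) ≤ B (x ∪ ρ) ∧ s ≤ W (x ∪ ρ) := by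
    intro x hx
    rw [hGdef] at hx
    by_cases h : 3 * A (x ∪ ρ) ≤ B (x ∪ ρ) ∧ s ≤ W (x ∪ ρ)
    · refine ⟨?_, h.1, h.2⟩
      have h3 := cB' _ h.1
      have h4 := hW1 (x ∪ ρ)
      linarith
    · rw [if_neg h] at hx
      exact absurd rfl hx
  have hgsum : ∀ x, ∑ j, g j x = G x := by
    intro x
    simp_rw [hg]
    rw [← Finset.mul_sum, ← Finset.sum_div]
    by_cases h : G x = 0
    · rw [h, zero_mul]
    · have hb := (hGB x h).1
      have : ∑ j, (if sat PB QB j (x ∪ ρ) then rB j else 0) = B (x ∪ ρ) := by rw [hB]; rfl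
      rw [this, div_self hb.ne', mul_one]
  have hπ1 : ∑ j, π j = 1 := by
    simp_rw [hπdef]
    rw [← Finset.sum_div, ← E_sum]
    have : (fun x => ∑ k, g k x) = G := by ext x; exact hgsum x
    rw [this, ← hBm]
    exact div_self hBm0.ne'
  have hspread : ∀ v, v ∉ ρ → ∑ k, π k * (if v ∈ PB k then (1 : ℝ) else 0) ≤ 3 * q := by
    intro v hv
    have h1 : ∑ k, π k * (if v ∈ PB k then (1 : ℝ) else 0) =
        E q (fun x => ∑ k, g k x * (if v ∈ PB k then (1 : ℝ) else 0)) / Bm := by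
      rw [E_sum, Finset.sum_div]
      apply Finset.sum_congr rfl
      intro k _
      rw [hπdef, E_mul_right]
      ring
    rw [h1]
    have h2 : E q (fun x => ∑ k, g k x * (if v ∈ PB k then (1 : ℝ) else 0)) ≤
        E q (fun x => if v ∈ x then (1:ℝ) else 0) := by
      apply E_mono hq0' hq1
      intro x
      by_cases hx : v ∈ x
      · rw [if_pos hx]
        calc ∑ k, g k x * (if v ∈ PB k then (1 : ℝ) else 0) ≤ ∑ k, g k x := by
              apply Finset.sum_le_sum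
              intro k _
              have := hg0 k x
              split_ifs <;> linarith
          _ = G x := hgsum x
          _ ≤ 1 := by rcases hG01 x with h | h <;> rw [h]; norm_num
      · rw [if_neg hx]
        apply le_of_eq
        apply Finset.sum_eq_zero
        intro k _
        by_cases hk : v ∈ PB k
        · have : ¬ sat PB QB k (x ∪ ρ) := by
            intro hsat
            have := hsat.1 hk
            rw [Finset.mem_union] at this
            exact this.elim hx hv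
          rw [hg, if_neg this, zero_div, mul_zero, zero_mul]
        · rw [if_neg hk, mul_zero]
    rw [E_mem] at h2
    rw [div_le_iff₀ hBm0]
    nlinarith
  have hgn := hgain π hπ0 hπ1 hspread
  -- loss and bad events
  obtain ⟨ℓ, hℓ⟩ : ∃ ℓ : ιB → Finset V → ℝ, ∀ j x, ℓ j x =
    loss (Sum.elim PA PB) (Sum.elim QA QB) (Sum.elim rA rB) (x ∪ ρ) ((x ∪ ρ) ∪ PB j) :=
    ⟨_, fun _ _ => rfl⟩
  have hℓ0 : ∀ j x, 0 ≤ ℓ j x := by
    intro j x
    rw [hℓ]
    exact loss_nonneg _ _ _ hG.r0 _ _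
  have hℓavg : ∀ x, ∑ j, π j * (ℓ j x / W (x ∪ ρ)) ≤ t * (3 * q) := by
    intro x
    have := avg_loss hG univ π (x ∪ ρ) (fun j => (x ∪ ρ) ∪ PB j) (t * (3 * q)) ?_
    · simp_rw [hℓ, hWv]
      exact this
    · intro i hi
      exact spread_sat hG univ π (fun k _ => hπ0 k) PB ρ (3 * q) hspread (x ∪ ρ)
        Finset.subset_union_right i hi (by positivity)
  obtain ⟨bad, hbad⟩ : ∃ bad : ιB → Finset V → ℝ, ∀ j x, bad j x =
    if 21 / 20 * W (x ∪ ρ) < W ((x ∪ ρ) ∪ PB j) ∨ 1 / 20 * W (x ∪ ρ) < ℓ j x then 1 else 0 :=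
    ⟨_, fun _ _ => rfl⟩
  have hbad01 : ∀ j x, bad j x = 0 ∨ bad j x = 1 := by
    intro j x; rw [hbad]; split_ifs <;> simp
  have hbad0 : ∀ j x, 0 ≤ bad j x := by
    intro j x; rcases hbad01 j x with h | h <;> rw [h]; norm_num
  have hbadle : ∀ j x, bad j x ≤ 20 * (ℓ j x / W (x ∪ ρ)) +
      21 * ((Real.log (W ((x ∪ ρ) ∪ PB j)) - Real.log (W (x ∪ ρ))) +
        2 * t * (ℓ j x / W (x ∪ ρ))) := by
    intro j x
    have hw := hWpos (x ∪ ρ)
    have h1 : 0 ≤ ℓ j x / W (x ∪ ρ) := div_nonneg (hℓ0 j x) hw.le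
    have h2 : Real.log (W (x ∪ ρ)) - Real.log (W ((x ∪ ρ) ∪ PB j)) ≤
        2 * t * (ℓ j x / W (x ∪ ρ)) := by
      apply log_diff hG.ht hw _ (hW1 _) (hℓ0 j x)
      · rw [hWv, hWv, hℓ]; exact val_loss _ _ _ hG.r0 _ _
      · rw [hWv]; exact hG.hi _
    rw [hbad]
    split_ifs with h
    · rcases h with h | h
      · have h3 : Real.log (21 / 20 * W (x ∪ ρ)) ≤ Real.log (W ((x ∪ ρ) ∪ PB j)) :=
          Real.log_le_log (by positivity) h.le
        rw [Real.log_mul (by norm_num) hw.ne'] at h3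
        have h4 := Real.one_sub_inv_le_log_of_pos (by norm_num : (0:ℝ) < 21 / 20)
        have h5 : (1:ℝ) - (21 / 20)⁻¹ = 1 / 21 := by norm_num
        rw [h5] at h4
        have h6 : 0 ≤ 2 * (t:ℝ) * (ℓ j x / W (x ∪ ρ)) := by positivity
        linarith
      · have h3 : 1 / 20 < ℓ j x / W (x ∪ ρ) := by rw [lt_div_iff₀ hw]; exact h
        linarith
    · linarith
  obtain ⟨ζ, hζ⟩ : ∃ ζ : ℝ, ζ = 20 * (t * (3 * q)) + 21 * (γ + 2 * t * (t * (3 * q))) :=
    ⟨_, rfl⟩
  have hζle : ∑ j, π j * E q (bad j) ≤ ζ := by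
    have e1 : ∑ j, π j * E q (bad j) ≤ ∑ j, π j * E q (fun x => 20 * (ℓ j x / W (x ∪ ρ)) +
      21 * ((Real.log (W ((x ∪ ρ) ∪ PB j)) - Real.log (W (x ∪ ρ))) +
        2 * t * (ℓ j x / W (x ∪ ρ)))) := by
      apply Finset.sum_le_sum
      intro j _
      exact mul_le_mul_of_nonneg_left (E_mono hq0' hq1 (hbadle j)) (hπ0 j)
    have e2 : ∀ j, E q (fun x => 20 * (ℓ j x / W (x ∪ ρ)) +
      21 * ((Real.log (W ((x ∪ ρ) ∪ PB j)) - Real.log (W (x ∪ ρ))) +
        2 * t * (ℓ j x / W (x ∪ ρ)))) = (20 + 42 * t) * E q (fun x => ℓ j x / W (x ∪ ρ)) +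
        21 * E q (fun x => Real.log (W ((x ∪ ρ) ∪ PB j))) -
        21 * E q (fun x => Real.log (W (x ∪ ρ))) := by
      intro j
      rw [← E_mul_left, ← E_mul_left, ← E_mul_left, ← E_add, ← E_sub]
      congr 1
      ext x
      ring
    have e3 : ∑ j, π j * E q (fun x => 20 * (ℓ j x / W (x ∪ ρ)) +
      21 * ((Real.log (W ((x ∪ ρ) ∪ PB j)) - Real.log (W (x ∪ ρ))) +
        2 * t * (ℓ j x / W (x ∪ ρ)))) =
        (20 + 42 * t) * ∑ j, π j * E q (fun x => ℓ j x / W (x ∪ ρ)) +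
        21 * (∑ j, π j * E q (fun x => Real.log (W ((x ∪ ρ) ∪ PB j))) -
        E q (fun x => Real.log (W (x ∪ ρ)))) := by
      simp_rw [e2]
      have : ∀ j, π j * ((20 + 42 * t) * E q (fun x => ℓ j x / W (x ∪ ρ)) +
        21 * E q (fun x => Real.log (W ((x ∪ ρ) ∪ PB j))) -
        21 * E q (fun x => Real.log (W (x ∪ ρ)))) =
        (20 + 42 * t) * (π j * E q (fun x => ℓ j x / W (x ∪ ρ))) +
        21 * (π j * E q (fun x => Real.log (W ((x ∪ ρ) ∪ PB j)))) -
        π j * (21 * E q (fun x => Real.log (W (x ∪ ρ)))) := by intro j; ring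
      simp_rw [this]
      rw [Finset.sum_sub_distrib, Finset.sum_add_distrib, ← Finset.mul_sum, ← Finset.mul_sum,
        ← Finset.sum_mul, hπ1]
      ring
    have e4 : ∑ j, π j * E q (fun x => ℓ j x / W (x ∪ ρ)) ≤ t * (3 * q) := by
      have e5 : ∑ j, π j * E q (fun x => ℓ j x / W (x ∪ ρ)) =
          E q (fun x => ∑ j, π j * (ℓ j x / W (x ∪ ρ))) := by
        rw [E_sum]
        apply Finset.sum_congr rfl
        intro j _
        rw [E_mul_left]
      rw [e5]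
      have := E_mono (V := V) hq0' hq1 hℓavg
      rwa [E_const] at this
    rw [e3] at e1
    refine e1.trans ?_
    have e6 : (20 + 42 * (t:ℝ)) * ∑ j, π j * E q (fun x => ℓ j x / W (x ∪ ρ)) ≤
        (20 + 42 * t) * (t * (3 * q)) := mul_le_mul_of_nonneg_left e4 (by positivity)
    rw [hζ]
    have e7 : (20 + 42 * (t:ℝ)) * (t * (3 * q)) = 20 * (t * (3 * q)) +
      21 * (2 * t * (t * (3 * q))) := by ring
    linarith
  have hζ0 : 0 ≤ ζ := le_trans
    (Finset.sum_nonneg fun j _ => mul_nonneg (hπ0 j) (E_nonneg hq0' hq1 (hbad0 j))) hζle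
  -- consequences of not being bad
  have good : ∀ j x, bad j x = 0 → W ((x ∪ ρ) ∪ PB j) ≤ 21 / 20 * W (x ∪ ρ) ∧
      (3 * B (x ∪ ρ) ≤ A (x ∪ ρ) → 3 * B ((x ∪ ρ) ∪ PB j) ≤ A ((x ∪ ρ) ∪ PB j)) ∧
      (3 * A (x ∪ ρ) ≤ B (x ∪ ρ) → 3 * A ((x ∪ ρ) ∪ PB j) ≤ B ((x ∪ ρ) ∪ PB j)) := by
    intro j x hb
    have hb' : ¬ (21 / 20 * W (x ∪ ρ) < W ((x ∪ ρ) ∪ PB j) ∨ 1 / 20 * W (x ∪ ρ) < ℓ j x) := by
      intro h; rw [hbad, if_pos h] at hb; exact one_ne_zero hb
    push Not at hb'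
    obtain ⟨h1, h2⟩ := hb'
    have hw := hWpos (x ∪ ρ)
    have hw' := hWpos ((x ∪ ρ) ∪ PB j)
    have lA : loss PA QA rA (x ∪ ρ) ((x ∪ ρ) ∪ PB j) ≤ ℓ j x := by
      rw [hℓ, loss_sum]
      have := loss_nonneg PB QB rB hrB (x ∪ ρ) ((x ∪ ρ) ∪ PB j)
      linarith
    have lB : loss PB QB rB (x ∪ ρ) ((x ∪ ρ) ∪ PB j) ≤ ℓ j x := by
      rw [hℓ, loss_sum]
      have := loss_nonneg PA QA rA (fun i => hG.r0 (Sum.inl i)) (x ∪ ρ) ((x ∪ ρ) ∪ PB j)
      linarith
    have vA := val_loss PA QA rA (fun i => hG.r0 (Sum.inl i)) (x ∪ ρ) ((x ∪ ρ) ∪ PB j)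
    have vB := val_loss PB QB rB hrB (x ∪ ρ) ((x ∪ ρ) ∪ PB j)
    rw [← hA, ← hA] at vA
    rw [← hB, ← hB] at vB
    have w' := hW ((x ∪ ρ) ∪ PB j)
    refine ⟨h1, ?_, ?_⟩
    · intro hc
      rcases hgap ((x ∪ ρ) ∪ PB j) with h | h
      · exact h
      · exfalso
        have := cA' _ hc
        linarith
    · intro hc
      rcases hgap ((x ∪ ρ) ∪ PB j) with h | h
      · exfalso
        have := cB' _ hc
        linarith
      · exact h
  -- the class of the planted input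
  obtain ⟨u', hu'⟩ : ∃ u' : ℝ, u' = u * (21 / 20) := ⟨_, rfl⟩
  have hu'0 : 0 ≤ u' := by rw [hu']; positivity
  obtain ⟨φ, hφ⟩ : ∃ φ : Finset V → ℝ, ∀ Y, φ Y =
      if 3 * B Y ≤ A Y ∧ W Y ≤ u' then 1 else 0 := ⟨_, fun _ => rfl⟩
  have hφ01 : ∀ Y, φ Y = 0 ∨ φ Y = 1 := by intro Y; rw [hφ]; split_ifs <;> simp
  have hφ0 : ∀ Y, 0 ≤ φ Y := by intro Y; rcases hφ01 Y with h | h <;> rw [h]; norm_num
  have hφ1 : ∀ Y, φ Y ≤ 1 := by intro Y; rcases hφ01 Y with h | h <;> rw [h]; norm_num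
  have low : E q (fun x => if 3 * B (x ∪ ρ) ≤ A (x ∪ ρ) ∧ W (x ∪ ρ) ≤ u then (1 : ℝ) else 0) ≤
      ∑ j, π j * E q (fun x => φ ((x ∪ ρ) ∪ PB j)) + ζ := by
    have e1 : ∀ j, E q (fun x => if 3 * B (x ∪ ρ) ≤ A (x ∪ ρ) ∧ W (x ∪ ρ) ≤ u
        then (1 : ℝ) else 0) ≤ E q (fun x => φ ((x ∪ ρ) ∪ PB j)) + E q (bad j) := by
      intro j
      rw [← E_add]
      apply E_mono hq0' hq1
      intro x
      by_cases hb : bad j x = 0
      · rw [hb, add_zero]
        obtain ⟨g1, g2, _⟩ := good j x hb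
        split_ifs with h
        · have : 3 * B ((x ∪ ρ) ∪ PB j) ≤ A ((x ∪ ρ) ∪ PB j) ∧ W ((x ∪ ρ) ∪ PB j) ≤ u' := by
            refine ⟨g2 h.1, ?_⟩
            rw [hu']; linarith [h.2]
          rw [hφ, if_pos this]
        · exact hφ0 _
      · have : bad j x = 1 := (hbad01 j x).resolve_left hb
        rw [this]
        have := hφ0 ((x ∪ ρ) ∪ PB j)
        split_ifs <;> linarith
    have e2 := Finset.sum_le_sum fun j (_ : j ∈ (univ : Finset ιB)) =>
      mul_le_mul_of_nonneg_left (e1 j) (hπ0 j)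
    rw [← Finset.sum_mul, hπ1, one_mul] at e2
    simp_rw [mul_add] at e2
    rw [Finset.sum_add_distrib] at e2
    linarith
  -- upper bound
  obtain ⟨C, hC⟩ : ∃ C : ℝ, C = 1 / Bm * (4 / (3 * s)) * (51 / 100) := ⟨_, rfl⟩
  have hC0 : 0 ≤ C := by rw [hC]; positivity
  have up : ∀ j, π j * E q (fun x => φ ((x ∪ ρ) ∪ PB j)) ≤
      100 * (π j * E q (bad j)) + π j * (t * q) +
      C * E q (fun x => φ (x ∪ ρ) * (if sat PB QB j (x ∪ ρ) then rB j else 0)) := by
    intro j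
    have hbE : 0 ≤ E q (bad j) := E_nonneg hq0' hq1 (hbad0 j)
    have hlast : 0 ≤ E q (fun x => φ (x ∪ ρ) * (if sat PB QB j (x ∪ ρ) then rB j else 0)) := by
      apply E_nonneg hq0' hq1
      intro x
      apply mul_nonneg (hφ0 _)
      split_ifs
      · exact hrB j
      · exact le_rfl
    have hφE : E q (fun x => φ ((x ∪ ρ) ∪ PB j)) ≤ 1 := by
      have := E_mono (V := V) hq0' hq1 (fun x => hφ1 ((x ∪ ρ) ∪ PB j))
      rwa [E_const] at this
    by_cases hπz : π j = 0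
    · rw [hπz, zero_mul, zero_mul, zero_mul, mul_zero, zero_add, zero_add]
      exact mul_nonneg hC0 hlast
    by_cases hbj : 1 / 100 < E q (bad j)
    · have h1 : π j * E q (fun x => φ ((x ∪ ρ) ∪ PB j)) ≤ π j * 1 :=
        mul_le_mul_of_nonneg_left hφE (hπ0 j)
      have h2 : π j * 1 ≤ π j * (100 * E q (bad j)) :=
        mul_le_mul_of_nonneg_left (by linarith) (hπ0 j)
      have h3 : 0 ≤ π j * (t * q) := mul_nonneg (hπ0 j) (by positivity)
      have h4 : 0 ≤ C * E q (fun x => φ (x ∪ ρ) * (if sat PB QB j (x ∪ ρ) then rB j else 0)) :=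
        mul_nonneg hC0 hlast
      linarith
    push Not at hbj
    -- geometry of the term
    obtain ⟨x0, hx0⟩ : ∃ x, sat PB QB j (x ∪ ρ) := by
      by_contra hcon
      push Not at hcon
      apply hπz
      rw [hπdef]
      have : g j = fun _ => 0 := by
        ext x; rw [hg, if_neg (hcon x), zero_div, mul_zero]
      rw [this, E_const, zero_div]
    have hQρ : Disjoint (QB j) ρ := Disjoint.mono_right Finset.subset_union_right hx0.2
    have hQP : Disjoint (QB j) (PB j) := Disjoint.mono_right hx0.1 hx0.2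
    obtain ⟨m, hm⟩ : ∃ m : ℝ, m = q ^ (PB j \ ρ).card := ⟨_, rfl⟩
    have hm0 : 0 < m := by rw [hm]; positivity
    have hset : ∀ x : Finset V, (x ∪ (PB j \ ρ)) ∪ ρ = (x ∪ ρ) ∪ PB j := by
      intro x; ext v; simp only [Finset.mem_union, Finset.mem_sdiff]; tauto
    have hsub : ∀ x : Finset V, (PB j \ ρ ⊆ x) ↔ PB j ⊆ x ∪ ρ := by
      intro x
      constructor
      · intro h v hv
        by_cases hvρ : v ∈ ρ
        · exact Finset.mem_union_right _ hvρ
        · exact Finset.mem_union_left _ (h (Finset.mem_sdiff.mpr ⟨hv, hvρ⟩))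
      · intro h v hv
        rw [Finset.mem_sdiff] at hv
        have := h hv.1
        rw [Finset.mem_union] at this
        tauto
    have plant : ∀ f : Finset V → ℝ, E q (fun x => if PB j ⊆ x ∪ ρ then f (x ∪ ρ) else 0) =
        m * E q (fun x => f ((x ∪ ρ) ∪ PB j)) := by
      intro f
      have := E_plant q (PB j \ ρ) (fun x => f (x ∪ ρ))
      simp_rw [hset, hsub] at this
      rw [hm]
      exact this
    -- bound on π
    have hπle : π j ≤ 1 / Bm * (4 / (3 * s)) * rB j * (m * (1 / 2 + E q (bad j))) := by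
      have h1 : E q (g j) ≤ E q (fun x => (4 / (3 * s) * rB j) *
          (if PB j ⊆ x ∪ ρ then (if 3 * A (x ∪ ρ) ≤ B (x ∪ ρ) then (1:ℝ) else 0) else 0)) := by
        apply E_mono hq0' hq1
        intro x
        have hr := hrB j
        have hnn : 0 ≤ (4 / (3 * s) * rB j) *
          (if PB j ⊆ x ∪ ρ then (if 3 * A (x ∪ ρ) ≤ B (x ∪ ρ) then (1:ℝ) else 0) else 0) := by
          apply mul_nonneg (by positivity)
          split_ifs <;> norm_num
        rw [hg]
        by_cases hGx : G x = 0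
        · rw [hGx, zero_mul]; exact hnn
        by_cases hsat : sat PB QB j (x ∪ ρ)
        · obtain ⟨b0, b1, b2⟩ := hGB x hGx
          have hG1 : G x = 1 := (hG01 x).resolve_left hGx
          rw [hG1, if_pos hsat, one_mul, if_pos hsat.1, if_pos b1, mul_one]
          rw [div_le_iff₀ b0]
          have b3 : 3 / 4 * s ≤ B (x ∪ ρ) := by
            have := cB' _ b1
            linarith
          have b4 : 1 ≤ 4 / (3 * s) * B (x ∪ ρ) := by
            rw [div_mul_eq_mul_div, le_div_iff₀ (by positivity)]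
            linarith
          nlinarith
        · rw [if_neg hsat, zero_div, mul_zero]; exact hnn
      rw [E_mul_left, plant (fun Y => if 3 * A Y ≤ B Y then (1:ℝ) else 0)] at h1
      have h2 : E q (fun x => if 3 * A ((x ∪ ρ) ∪ PB j) ≤ B ((x ∪ ρ) ∪ PB j)
          then (1:ℝ) else 0) ≤ 1 / 2 + E q (bad j) := by
        rw [← hhalfB, ← E_add]
        apply E_mono hq0' hq1
        intro x
        by_cases hb : bad j x = 0
        · rw [hb, add_zero]
          obtain ⟨_, g2, _⟩ := good j x hb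
          by_cases h : 3 * A (x ∪ ρ) ≤ B (x ∪ ρ)
          · rw [if_pos h]; split_ifs <;> norm_num
          · have h' : 3 * B (x ∪ ρ) ≤ A (x ∪ ρ) := (hgap _).resolve_right h
            rw [if_neg (fun h2 => excl _ (g2 h') h2), if_neg h]
        · have : bad j x = 1 := (hbad01 j x).resolve_left hb
          rw [this]
          split_ifs <;> norm_num
      have h3 : 0 ≤ 4 / (3 * s) * rB j := mul_nonneg (by positivity) (hrB j)
      have h4 := h1.trans (mul_le_mul_of_nonneg_left (mul_le_mul_of_nonneg_left h2 hm0.le) h3)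
      rw [hπdef, div_le_iff₀ hBm0]
      refine h4.trans (le_of_eq ?_)
      field_simp
    have hπle' : π j ≤ C * rB j * m := by
      refine hπle.trans ?_
      rw [hC]
      have : 1 / 2 + E q (bad j) ≤ 51 / 100 := by linarith
      have h5 : 0 ≤ 1 / Bm * (4 / (3 * s)) * rB j := mul_nonneg (by positivity) (hrB j)
      calc 1 / Bm * (4 / (3 * s)) * rB j * (m * (1 / 2 + E q (bad j)))
          ≤ 1 / Bm * (4 / (3 * s)) * rB j * (m * (51 / 100)) := by
            apply mul_le_mul_of_nonneg_left _ h5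
            exact mul_le_mul_of_nonneg_left this hm0.le
        _ = 1 / Bm * (4 / (3 * s)) * (51 / 100) * rB j * m := by ring
    -- bound on the expectation of φ
    have hφpl := plant φ
    have h6 : E q (fun x => if PB j ⊆ x ∪ ρ then φ (x ∪ ρ) else 0) ≤
        E q (fun x => φ (x ∪ ρ) * (if sat PB QB j (x ∪ ρ) then (1:ℝ) else 0)) +
        E q (fun x => if PB j ⊆ x ∪ ρ then (if Disjoint (QB j) (x ∪ ρ) then (0:ℝ) else 1)
          else 0) := by
      rw [← E_add]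
      apply E_mono hq0' hq1
      intro x
      by_cases h1 : PB j ⊆ x ∪ ρ
      · by_cases h2 : Disjoint (QB j) (x ∪ ρ)
        · rw [if_pos h1, if_pos (show sat PB QB j (x ∪ ρ) from ⟨h1, h2⟩), if_pos h1, if_pos h2]
          linarith
        · have : ¬ sat PB QB j (x ∪ ρ) := fun h => h2 h.2
          rw [if_pos h1, if_neg this, if_pos h1, if_neg h2]
          have := hφ1 (x ∪ ρ)
          linarith
      · have : ¬ sat PB QB j (x ∪ ρ) := fun h => h1 h.1
        rw [if_neg h1, if_neg this, if_neg h1]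
        norm_num
    rw [hφpl, plant (fun Y => if Disjoint (QB j) Y then (0:ℝ) else 1)] at h6
    have h7 : E q (fun x => if Disjoint (QB j) ((x ∪ ρ) ∪ PB j) then (0:ℝ) else 1) ≤ t * q := by
      have h8 : E q (fun x => if Disjoint (QB j) ((x ∪ ρ) ∪ PB j) then (0:ℝ) else 1) ≤
          (QB j).card * q := by
        apply E_union_bound hq0' hq1
        intro x
        by_cases hy : Disjoint (QB j) x
        · have : Disjoint (QB j) ((x ∪ ρ) ∪ PB j) := by
            rw [Finset.disjoint_union_right, Finset.disjoint_union_right]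
            exact ⟨⟨hy, hQρ⟩, hQP⟩
          rw [if_pos this]
          apply Finset.sum_nonneg
          intro v _
          split_ifs <;> norm_num
        · obtain ⟨v, hv, hvy⟩ := Finset.not_disjoint_iff.mp hy
          have h4 : (1:ℝ) ≤ ∑ v ∈ QB j, if v ∈ x then (1 : ℝ) else 0 := by
            have := Finset.single_le_sum (f := fun v => if v ∈ x then (1 : ℝ) else 0)
              (fun v _ => by split_ifs <;> norm_num) hv
            simpa [hvy] using this
          split_ifs <;> linarith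
      refine h8.trans ?_
      apply mul_le_mul_of_nonneg_right _ hq0'
      exact_mod_cast hG.cQ (Sum.inr j)
    have h9 : E q (fun x => φ (x ∪ ρ) * (if sat PB QB j (x ∪ ρ) then rB j else 0)) =
        rB j * E q (fun x => φ (x ∪ ρ) * (if sat PB QB j (x ∪ ρ) then (1:ℝ) else 0)) := by
      rw [← E_mul_left]
      congr 1
      ext x
      split_ifs <;> ring
    rw [h9]
    obtain ⟨y, hy⟩ : ∃ y, y = E q (fun x => φ ((x ∪ ρ) ∪ PB j)) := ⟨_, rfl⟩
    obtain ⟨z, hz⟩ : ∃ z, z = E q (fun x => φ (x ∪ ρ) *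
      (if sat PB QB j (x ∪ ρ) then (1:ℝ) else 0)) := ⟨_, rfl⟩
    obtain ⟨d, hd⟩ : ∃ d, d = E q (fun x => if Disjoint (QB j) ((x ∪ ρ) ∪ PB j)
      then (0:ℝ) else 1) := ⟨_, rfl⟩
    rw [← hy, ← hz]
    rw [← hy, ← hz, ← hd] at h6
    rw [← hd] at h7
    have hz0 : 0 ≤ z := by
      rw [hz]
      apply E_nonneg hq0' hq1
      intro x
      apply mul_nonneg (hφ0 _)
      split_ifs <;> norm_num
    -- m y ≤ z + m d
    have h10 : y ≤ z / m + t * q := by
      have : y ≤ z / m + d := by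
        rw [← sub_le_iff_le_add, le_div_iff₀ hm0]
        linarith
      linarith
    have h11 : π j * (z / m) ≤ C * (rB j * z) := by
      rw [mul_div_assoc', div_le_iff₀ hm0]
      calc π j * z ≤ C * rB j * m * z := mul_le_mul_of_nonneg_right hπle' hz0
        _ = C * (rB j * z) * m := by ring
    have h12 : π j * y ≤ π j * (z / m + t * q) := mul_le_mul_of_nonneg_left h10 (hπ0 j)
    have h13 : 0 ≤ 100 * (π j * E q (bad j)) := by
      have := mul_nonneg (hπ0 j) hbE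
      linarith
    linarith [h11, h12, h13, mul_add (π j) (z / m) (t * q)]
  have upsum : ∑ j, π j * E q (fun x => φ ((x ∪ ρ) ∪ PB j)) ≤
      100 * ζ + t * q + 77 / 100 * E q (fun x => φ (x ∪ ρ)) := by
    have e1 := Finset.sum_le_sum fun j (_ : j ∈ (univ : Finset ιB)) => up j
    rw [Finset.sum_add_distrib, Finset.sum_add_distrib, ← Finset.mul_sum, ← Finset.mul_sum,
      ← Finset.sum_mul, hπ1, one_mul, ← E_sum] at e1
    have e2 : E q (fun x => ∑ j, φ (x ∪ ρ) * (if sat PB QB j (x ∪ ρ) then rB j else 0)) ≤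
        E q (fun x => u' / 4 * φ (x ∪ ρ)) := by
      apply E_mono hq0' hq1
      intro x
      rw [← Finset.mul_sum]
      have : ∑ j, (if sat PB QB j (x ∪ ρ) then rB j else 0) = B (x ∪ ρ) := by rw [hB]; rfl
      rw [this]
      rw [hφ]
      split_ifs with h
      · have := cA _ h.1
        linarith [h.2]
      · linarith
    rw [E_mul_left] at e2
    have hφE0 : 0 ≤ E q (fun x => φ (x ∪ ρ)) := E_nonneg hq0' hq1 fun x => hφ0 _
    have e3 : C * (u' / 4) ≤ 77 / 100 := by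
      rw [hC]
      have h1 : 1 / Bm ≤ 20 / 9 := by
        rw [div_le_div_iff₀ hBm0 (by norm_num)]
        linarith
      have h2 : 4 / (3 * s) * (u' / 4) ≤ 2 / 3 := by
        rw [div_mul_div_comm, div_le_div_iff₀ (by positivity) (by norm_num), hu']
        linarith
      have h3 : 0 ≤ 4 / (3 * s) * (u' / 4) := by positivity
      have h4 : 0 < 1 / Bm := by positivity
      calc 1 / Bm * (4 / (3 * s)) * (51 / 100) * (u' / 4)
          = (1 / Bm) * (4 / (3 * s) * (u' / 4)) * (51 / 100) := by ring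
        _ ≤ (20 / 9) * (2 / 3) * (51 / 100) := by
            apply mul_le_mul_of_nonneg_right _ (by norm_num)
            exact mul_le_mul h1 h2 h3 (by norm_num)
        _ ≤ 77 / 100 := by norm_num
    have e4 : C * E q (fun x => ∑ j, φ (x ∪ ρ) * (if sat PB QB j (x ∪ ρ) then rB j else 0)) ≤
        77 / 100 * E q (fun x => φ (x ∪ ρ)) := by
      calc C * E q (fun x => ∑ j, φ (x ∪ ρ) * (if sat PB QB j (x ∪ ρ) then rB j else 0))
          ≤ C * (u' / 4 * E q (fun x => φ (x ∪ ρ))) := mul_le_mul_of_nonneg_left e2 hC0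
        _ = C * (u' / 4) * E q (fun x => φ (x ∪ ρ)) := by ring
        _ ≤ 77 / 100 * E q (fun x => φ (x ∪ ρ)) := mul_le_mul_of_nonneg_right e3 hφE0
    have e5 : 100 * ∑ j, π j * E q (bad j) ≤ 100 * ζ := by linarith
    linarith
  rw [← hζ, ← hu']
  have e : E q (fun x => φ (x ∪ ρ)) = E q (fun x => if 3 * B (x ∪ ρ) ≤ A (x ∪ ρ) ∧
      W (x ∪ ρ) ≤ u' then (1 : ℝ) else 0) := by
    congr 1
    ext x
    rw [hφ]
  rw [e] at upsum
  linarith

end Pool.Agent.BPath
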