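import Mathlib

/-!
# Expectations over random subsets of a finite type
-/

namespace Pool.Agent.BPath

open Finset

variable {V : Type} [Fintype V] [DecidableEq V]

/-- The weight of one coordinate. -/
def wt (p : ℝ) (b : Bool) : ℝ := if b then p else 1 - p

/-- The subset given by its indicator function. -/
def supp (ω : V → Bool) : Finset V := univ.filter fun i => ω i = true

omit [DecidableEq V] in
@[simp] lemma mem_supp (ω : V → Bool) (i : V) : i ∈ supp ω ↔ ω i = true := by simp [supp]

/-- Expectation of `f` over a `p`-random subset. -/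
noncomputable def E (p : ℝ) (f : Finset V → ℝ) : ℝ :=
  ∑ ω : V → Bool, (∏ i, wt p (ω i)) * f (supp ω)

lemma wt_nonneg {p : ℝ} (h0 : 0 ≤ p) (h1 : p ≤ 1) (b : Bool) : 0 ≤ wt p b := by
  cases b <;> simp [wt] <;> linarith

lemma sum_wt (p : ℝ) : ∑ b : Bool, wt p b = 1 := by simp [wt]

/-- Push-forward of a product weight along a coordinatewise map. -/
lemma push {α β : Type} [Fintype α] [Fintype β] [DecidableEq β]
    (w : V → α → ℝ) (φ : V → α → β) (f : (V → β) → ℝ) :
    ∑ x : V → α, (∏ i, w i (x i)) * f (fun i => φ i (x i)) =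
      ∑ z : V → β, (∏ i, ∑ a ∈ univ.filter (fun a => φ i a = z i), w i a) * f z := by
  classical
  have h1 : ∀ z : V → β, (∏ i, ∑ a ∈ univ.filter (fun a => φ i a = z i), w i a) * f z =
      ∑ x ∈ univ.filter (fun x : V → α => (fun i => φ i (x i)) = z),
        (∏ i, w i (x i)) * f (fun i => φ i (x i)) := by
    intro z
    rw [Finset.prod_univ_sum, Finset.sum_mul]
    have h2 : Fintype.piFinset (fun i => univ.filter (fun a => φ i a = z i)) =
        univ.filter (fun x : V → α => (fun i => φ i (x i)) = z) := by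
      ext x
      simp [Fintype.mem_piFinset, funext_iff]
    rw [h2]
    apply Finset.sum_congr rfl
    intro x hx
    rw [(Finset.mem_filter.mp hx).2]
  simp_rw [h1]
  exact (Finset.sum_fiberwise univ (fun x : V → α => (fun i => φ i (x i)))
    (fun x => (∏ i, w i (x i)) * f (fun i => φ i (x i)))).symm

lemma E_const (p c : ℝ) : E (V := V) p (fun _ => c) = c := by
  have h : ∑ ω : V → Bool, (∏ i, wt p (ω i)) = 1 := by
    have := (Finset.prod_univ_sum (fun _ : V => (univ : Finset Bool)) (fun _ b => wt p b)).symm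
    simp only [Fintype.piFinset_univ] at this
    rw [this]
    apply Finset.prod_eq_one
    intro i _
    exact sum_wt p
  unfold E
  rw [← Finset.sum_mul, h, one_mul]

lemma E_add (p : ℝ) (f g : Finset V → ℝ) : E p (fun x => f x + g x) = E p f + E p g := by
  unfold E; rw [← Finset.sum_add_distrib]; congr 1; ext ω; ring

lemma E_sub (p : ℝ) (f g : Finset V → ℝ) : E p (fun x => f x - g x) = E p f - E p g := by
  unfold E; rw [← Finset.sum_sub_distrib]; congr 1; ext ω; ring

lemma E_mul_left (p c : ℝ) (f : Finset V → ℝ) : E p (fun x => c * f x) = c * E p f := by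
  unfold E; rw [Finset.mul_sum]; congr 1; ext ω; ring

lemma E_mul_right (p c : ℝ) (f : Finset V → ℝ) : E p (fun x => f x * c) = E p f * c := by
  unfold E; rw [Finset.sum_mul]; congr 1; ext ω; ring

lemma E_sum {κ : Type*} (s : Finset κ) (p : ℝ) (f : κ → Finset V → ℝ) :
    E p (fun x => ∑ k ∈ s, f k x) = ∑ k ∈ s, E p (f k) := by
  unfold E; rw [Finset.sum_comm]; congr 1; ext ω; rw [Finset.mul_sum]

lemma E_mono {p : ℝ} (h0 : 0 ≤ p) (h1 : p ≤ 1) {f g : Finset V → ℝ} (h : ∀ x, f x ≤ g x) :
    E p f ≤ E p g := by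
  unfold E
  apply Finset.sum_le_sum
  intro ω _
  exact mul_le_mul_of_nonneg_left (h _) (Finset.prod_nonneg fun i _ => wt_nonneg h0 h1 _)

lemma E_nonneg {p : ℝ} (h0 : 0 ≤ p) (h1 : p ≤ 1) {f : Finset V → ℝ} (h : ∀ x, 0 ≤ f x) :
    0 ≤ E p f := by
  unfold E
  apply Finset.sum_nonneg
  intro ω _
  exact mul_nonneg (Finset.prod_nonneg fun i _ => wt_nonneg h0 h1 _) (h _)

lemma E_continuous (f : Finset V → ℝ) : Continuous fun p => E p f := by
  unfold E
  apply continuous_finsetSum
  intro ω _
  apply Continuous.mul _ continuous_const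
  apply continuous_finsetProd
  intro i _
  unfold wt
  cases ω i <;> simp <;> fun_prop

/-- Conditioning on `P ⊆ x` is planting `P`. -/
lemma E_plant (p : ℝ) (P : Finset V) (f : Finset V → ℝ) :
    E p (fun x => if P ⊆ x then f x else 0) = p ^ P.card * E p (fun x => f (x ∪ P)) := by
  have h1 : E p (fun x => f (x ∪ P)) =
      ∑ z : V → Bool, (∏ i, ∑ a ∈ univ.filter (fun a => (a || decide (i ∈ P)) = z i), wt p a)
        * f (supp z) := by
    rw [← push (fun _ => wt p) (fun i a => a || decide (i ∈ P)) (fun z => f (supp z))]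
    unfold E
    apply Finset.sum_congr rfl
    intro ω _
    congr 1
    have : supp ω ∪ P = supp fun i => ω i || decide (i ∈ P) := by
      ext i
      simp
    show f (supp ω ∪ P) = _
    rw [this]
  rw [h1, Finset.mul_sum]
  unfold E
  apply Finset.sum_congr rfl
  intro z _
  show (∏ i, wt p (z i)) * (if P ⊆ supp z then f (supp z) else 0) = _
  by_cases hP : P ⊆ supp z
  · rw [if_pos hP, ← mul_assoc]
    congr 1
    have h2 : p ^ P.card = ∏ i, if i ∈ P then p else 1 := by
      rw [Finset.prod_ite_mem, Finset.univ_inter, Finset.prod_const]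
    rw [h2, ← Finset.prod_mul_distrib]
    apply Finset.prod_congr rfl
    intro i _
    by_cases hi : i ∈ P
    · have hz : z i = true := by simpa using hP hi
      have : (univ.filter fun a : Bool => (a || decide (i ∈ P)) = z i) = univ := by
        ext a; simp [hi, hz]
      rw [this, sum_wt]
      simp [hi, hz, wt]
    · have : (univ.filter fun a : Bool => (a || decide (i ∈ P)) = z i) = {z i} := by
        ext a; simp [hi]
      rw [this]
      simp [hi]
  · rw [if_neg hP, mul_zero]
    obtain ⟨i, hi, hz⟩ : ∃ i ∈ P, z i = false := by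
      by_contra hcon
      push Not at hcon
      exact hP fun i hi => by simpa using hcon i hi
    have : (∏ i, ∑ a ∈ univ.filter (fun a : Bool => (a || decide (i ∈ P)) = z i), wt p a) = 0 := by
      apply Finset.prod_eq_zero (Finset.mem_univ i)
      have : (univ.filter fun a : Bool => (a || decide (i ∈ P)) = z i) = ∅ := by
        ext a; simp [hi, hz]
      rw [this, Finset.sum_empty]
    rw [this]; ring

lemma E_subset (p : ℝ) (P : Finset V) :
    E p (fun x => if P ⊆ x then (1 : ℝ) else 0) = p ^ P.card := by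
  rw [E_plant p P (fun _ => 1), E_const, mul_one]

lemma E_mem (p : ℝ) (v : V) : E p (fun x => if v ∈ x then (1 : ℝ) else 0) = p := by
  have := E_subset p ({v} : Finset V)
  simpa using this

lemma E_notMem (p : ℝ) (v : V) : E p (fun x => if v ∈ x then (0 : ℝ) else 1) = 1 - p := by
  have h : (fun x : Finset V => if v ∈ x then (0 : ℝ) else 1) =
      fun x => 1 - (if v ∈ x then (1 : ℝ) else 0) := by
    ext x; split_ifs <;> norm_num
  rw [h, E_sub, E_const, E_mem]

/-- Two independent random sets, combined coordinatewise. -/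
lemma E_comb (p r q : ℝ) (g : Bool → Bool → Bool) (c : Finset V → Finset V → Finset V)
    (hc : ∀ x y i, i ∈ c x y ↔ g (decide (i ∈ x)) (decide (i ∈ y)) = true)
    (hq : ∀ b, (∑ a : Bool × Bool, if g a.1 a.2 = b then wt p a.1 * wt r a.2 else 0) = wt q b)
    (f : Finset V → ℝ) :
    E p (fun x => E r (fun y => f (c x y))) = E q f := by
  have h1 : E p (fun x => E r (fun y => f (c x y))) =
      ∑ ω : V → Bool × Bool, (∏ i, (wt p (ω i).1 * wt r (ω i).2)) *
        f (supp fun i => g (ω i).1 (ω i).2) := by
    unfold E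
    simp_rw [Finset.mul_sum]
    rw [← Finset.sum_product']
    rw [Finset.univ_product_univ]
    apply Fintype.sum_equiv (Equiv.arrowProdEquivProdArrow V (fun _ => Bool) (fun _ => Bool)).symm
    rintro ⟨x, y⟩
    simp only [Equiv.arrowProdEquivProdArrow_symm_apply]
    rw [Finset.prod_mul_distrib, mul_assoc]
    congr 3
    ext i
    rw [hc]
    simp
  rw [h1]
  have h2 := push (V := V) (fun _ (a : Bool × Bool) => wt p a.1 * wt r a.2)
    (fun _ a => g a.1 a.2) (fun z => f (supp z))
  rw [h2]
  unfold E
  apply Finset.sum_congr rfl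
  intro z _
  congr 1
  apply Finset.prod_congr rfl
  intro i _
  rw [← hq (z i), Finset.sum_filter]

lemma E_inter (p r : ℝ) (f : Finset V → ℝ) :
    E p (fun x => E r (fun y => f (x ∩ y))) = E (p * r) f := by
  apply E_comb p r (p * r) (fun a b => a && b) (fun x y => x ∩ y)
  · intro x y i; simp
  · intro b
    rw [Fintype.sum_prod_type]
    cases b <;> simp [wt] <;> ring

lemma E_union (p s : ℝ) (f : Finset V → ℝ) :
    E p (fun x => E s (fun y => f (x ∪ y))) = E (1 - (1 - p) * (1 - s)) f := by
  apply E_comb p s (1 - (1 - p) * (1 - s)) (fun a b => a || b) (fun x y => x ∪ y)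
  · intro x y i; simp
  · intro b
    rw [Fintype.sum_prod_type]
    cases b <;> simp [wt] <;> ring

/-- The mean of the cardinality. -/
lemma E_card (p : ℝ) : E (V := V) p (fun x => (x.card : ℝ)) = Fintype.card V * p := by
  have h : (fun x : Finset V => (x.card : ℝ)) = fun x => ∑ v ∈ (univ : Finset V),
      if v ∈ x then (1 : ℝ) else 0 := by
    ext x; simp
  rw [h, E_sum]
  simp [E_mem]

/-- The second moment of the cardinality. -/
lemma E_card_sq (p : ℝ) : E (V := V) p (fun x => (x.card : ℝ) ^ 2) =
    Fintype.card V * p + (Fintype.card V * Fintype.card V - Fintype.card V) * p ^ 2 := by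
  have h : (fun x : Finset V => (x.card : ℝ) ^ 2) = fun x => ∑ v ∈ (univ : Finset V),
      ∑ w ∈ (univ : Finset V), if ({v, w} : Finset V) ⊆ x then (1 : ℝ) else 0 := by
    ext x
    have h1 : (x.card : ℝ) = ∑ v ∈ (univ : Finset V), if v ∈ x then (1 : ℝ) else 0 := by simp
    rw [sq]
    nth_rewrite 1 [h1]
    rw [h1, Finset.sum_mul_sum]
    apply Finset.sum_congr rfl; intro v _
    apply Finset.sum_congr rfl; intro w _
    by_cases hv : v ∈ x <;> by_cases hw : w ∈ x <;> simp [hv, hw, Finset.insert_subset_iff]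
  rw [h, E_sum]
  simp_rw [E_sum, E_subset]
  have h2 : ∀ v : V, ∑ w ∈ (univ : Finset V), p ^ ({v, w} : Finset V).card =
      p + (Fintype.card V - 1) * p ^ 2 := by
    intro v
    rw [← Finset.add_sum_erase univ _ (Finset.mem_univ v)]
    have h3 : ∀ w ∈ univ.erase v, p ^ ({v, w} : Finset V).card = p ^ 2 := by
      intro w hw
      rw [Finset.card_pair (Finset.ne_of_mem_erase hw).symm]
    rw [Finset.sum_congr rfl h3, Finset.sum_const, Finset.card_erase_of_mem (Finset.mem_univ v)]
    have : 1 ≤ Fintype.card V := Fintype.card_pos_iff.mpr ⟨v⟩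
    simp [Nat.cast_sub this]
  simp_rw [h2]
  rw [Finset.sum_const, Finset.card_univ, nsmul_eq_mul]
  ring

end Pool.Agent.BPath
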